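import Pool.Agent.helper4.Tw.Common
import Pool.Agent.helper45.Tw.D

set_option autoImplicit false

/-!
# The base point for curves with a point of order three

`t > 1` rational. The base curve is `Y^2 = X (X - α) (X + β)` with `α = pa t`, `β = pb t`.
-/

namespace H28.TW

open WeierstrassCurve WeierstrassCurve.Affine H48.CN H4.Tw

/-- `t^3 + 3 t^2 - 1`. -/
def pg (t : ℚ) : ℚ := t ^ 3 + 3 * t ^ 2 - 1
/-- first sextic -/
def pn (t : ℚ) : ℚ := t ^ 6 + 3 * t ^ 5 - 5 * t ^ 3 + 3 * t + 1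
/-- second sextic -/
def p6 (t : ℚ) : ℚ := t ^ 6 + 7 * t ^ 5 + 16 * t ^ 4 + 7 * t ^ 3 - 4 * t ^ 2 - t + 1
/-- third sextic -/
def q6 (t : ℚ) : ℚ := t ^ 6 - t ^ 5 - 4 * t ^ 4 + 7 * t ^ 3 + 16 * t ^ 2 + 7 * t + 1
/-- `t (t + 2) (t^2 - 1)` -/
def ptau (t : ℚ) : ℚ := t * (t + 2) * (t ^ 2 - 1)
/-- the second constant -/
def pc (t : ℚ) : ℚ := (2 * t + 1) * ptau t
/-- `α` -/
def pa (t : ℚ) : ℚ := 16 * (2 * t + 1) ^ 2 * ptau t ^ 2 * (t + 1) ^ 2
/-- `β` -/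
def pb (t : ℚ) : ℚ := (t + 1) ^ 2 * p6 t * q6 t

/-- the three square roots -/
def ru (t : ℚ) : ℚ := 2 * (t + 1) * (t ^ 3 - 3 * t - 1) / pg t
/-- the three square roots -/
def rv (t : ℚ) : ℚ := 2 * (t + 1) * (t ^ 3 + 6 * t ^ 2 + 3 * t - 1) / pg t
/-- the three square roots -/
def rw' (t : ℚ) : ℚ := (t + 1) * (t ^ 3 - 3 * t ^ 2 - 6 * t - 1) / pg t

/-- the abscissa of the base point -/
def x6 (t : ℚ) : ℚ := -(p6 t * pc t * ru t ^ 2)
/-- the ordinate -/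
def y6 (t : ℚ) : ℚ := p6 t * pc t * pn t * ru t * rv t * rw' t

variable {t : ℚ}

theorem pg_pos (h : 1 < t) : 0 < pg t := by
  obtain ⟨s, hs, rfl⟩ : ∃ s : ℚ, 0 < s ∧ t = 1 + s := ⟨t - 1, by linarith, by ring⟩
  have : pg (1 + s) = s ^ 3 + 6 * s ^ 2 + 9 * s + 3 := by unfold pg; ring
  rw [this]; positivity

theorem pn_pos (h : 1 < t) : 0 < pn t := by
  obtain ⟨s, hs, rfl⟩ : ∃ s : ℚ, 0 < s ∧ t = 1 + s := ⟨t - 1, by linarith, by ring⟩
  have : pn (1 + s) = s ^ 6 + 9 * s ^ 5 + 30 * s ^ 4 + 45 * s ^ 3 + 30 * s ^ 2 + 9 * s + 3 := by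
    unfold pn; ring
  rw [this]; positivity

theorem p6_pos (h : 1 < t) : 0 < p6 t := by
  obtain ⟨s, hs, rfl⟩ : ∃ s : ℚ, 0 < s ∧ t = 1 + s := ⟨t - 1, by linarith, by ring⟩
  have : p6 (1 + s) = s ^ 6 + 13 * s ^ 5 + 66 * s ^ 4 + 161 * s ^ 3 + 198 * s ^ 2 + 117 * s +
    27 := by unfold p6; ring
  rw [this]; positivity

theorem q6_pos (h : 1 < t) : 0 < q6 t := by
  obtain ⟨s, hs, rfl⟩ : ∃ s : ℚ, 0 < s ∧ t = 1 + s := ⟨t - 1, by linarith, by ring⟩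
  have : q6 (1 + s) = s ^ 6 + 5 * s ^ 5 + 6 * s ^ 4 + s ^ 3 + 18 * s ^ 2 + 45 * s +
    27 := by unfold q6; ring
  rw [this]; positivity

theorem ptau_pos (h : 1 < t) : 0 < ptau t := by
  unfold ptau
  have : 0 < t ^ 2 - 1 := by nlinarith
  positivity

theorem pc_pos (h : 1 < t) : 0 < pc t := by
  have := ptau_pos h
  unfold pc; positivity

theorem pa_pos (h : 1 < t) : 0 < pa t := by
  have := ptau_pos h
  unfold pa; positivity

theorem pb_pos (h : 1 < t) : 0 < pb t := by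
  have := p6_pos h
  have := q6_pos h
  unfold pb; positivity

theorem x6_neg (t : ℚ) : -x6 t = p6 t * pc t * ru t ^ 2 := by
  unfold x6; ring

theorem sqd (X : ℚ) {D : ℚ} (hD : D ≠ 0) : (X / D) ^ 2 * D ^ 2 = X ^ 2 := by
  rw [div_pow, div_mul_cancel₀ _ (pow_ne_zero 2 hD)]

theorem x6_a (hD : pg t ≠ 0) : pa t - x6 t = pc t * pn t * rv t ^ 2 := by
  unfold x6 pa pc ru rv
  have : (4 * (2 * t + 1) * ptau t * pg t ^ 2 + p6 t * (t ^ 3 - 3 * t - 1) ^ 2) =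
    pn t * (t ^ 3 + 6 * t ^ 2 + 3 * t - 1) ^ 2 := by
    unfold ptau pg p6 pn; ring
  generalize ptau t = T at *
  generalize pg t = D at *
  generalize p6 t = P at *
  generalize pn t = Q at *
  apply mul_right_cancel₀ (pow_ne_zero 2 hD)
  linear_combination (P * (2 * t + 1) * T) * sqd (2 * (t + 1) * (t ^ 3 - 3 * t - 1)) hD -
    ((2 * t + 1) * T * Q) * sqd (2 * (t + 1) * (t ^ 3 + 6 * t ^ 2 + 3 * t - 1)) hD +
    (4 * (2 * t + 1) * T * (t + 1) ^ 2) * this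

theorem x6_b (hD : pg t ≠ 0) : x6 t + pb t = p6 t * pn t * rw' t ^ 2 := by
  unfold x6 pb pc ru rw'
  have : q6 t * pg t ^ 2 - 4 * (2 * t + 1) * ptau t * (t ^ 3 - 3 * t - 1) ^ 2 =
    pn t * (t ^ 3 - 3 * t ^ 2 - 6 * t - 1) ^ 2 := by
    unfold ptau pg q6 pn; ring
  generalize ptau t = T at *
  generalize pg t = D at *
  generalize p6 t = P at *
  generalize q6 t = R at *
  generalize pn t = Q at *
  apply mul_right_cancel₀ (pow_ne_zero 2 hD)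
  linear_combination (-(P * (2 * t + 1) * T)) * sqd (2 * (t + 1) * (t ^ 3 - 3 * t - 1)) hD -
    (P * Q) * sqd ((t + 1) * (t ^ 3 - 3 * t ^ 2 - 6 * t - 1)) hD +
    (P * (t + 1) ^ 2) * this

/-- an integer cubic without roots modulo 2 has no rational root -/
theorem cubic_ne {c d e : ℤ} (hc : ∀ m n : ℤ, ¬(2 ∣ m ∧ 2 ∣ n) →
    ¬ 2 ∣ m ^ 3 + c * m ^ 2 * n + d * m * n ^ 2 + e * n ^ 3) (t : ℚ) :
    t ^ 3 + c * t ^ 2 + d * t + e ≠ 0 := by
  intro h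
  apply hc t.num t.den
  · rintro ⟨h1, h2⟩
    have h3 : (2 : ℤ) ∣ ((Int.gcd t.num t.den : ℕ) : ℤ) := Int.dvd_coe_gcd h1 h2
    have h4 : Int.gcd t.num t.den = 1 := t.reduced
    rw [h4] at h3
    omega
  · have h5 : t.num ^ 3 + c * t.num ^ 2 * t.den + d * t.num * (t.den : ℤ) ^ 2 +
        e * (t.den : ℤ) ^ 3 = 0 := by
      have h6 : ((t.num ^ 3 + c * t.num ^ 2 * t.den + d * t.num * (t.den : ℤ) ^ 2 +
        e * (t.den : ℤ) ^ 3 : ℤ) : ℚ) = (t.den : ℚ) ^ 3 * (t ^ 3 + c * t ^ 2 + d * t + e) := by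
        have h7 : (t.num : ℚ) = t * t.den := (Rat.mul_den_eq_num t).symm
        push_cast
        rw [h7]; ring
      rw [h, mul_zero] at h6
      exact_mod_cast h6
    rw [h5]
    exact dvd_zero 2

theorem odd_form (c d e : ℤ) (h1 : ¬ 2 ∣ e) (h2 : ¬ 2 ∣ 1 + c + d + e) (m n : ℤ)
    (h : ¬(2 ∣ m ∧ 2 ∣ n)) : ¬ 2 ∣ m ^ 3 + c * m ^ 2 * n + d * m * n ^ 2 + e * n ^ 3 := by
  have hm : m % 2 = 0 ∨ m % 2 = 1 := by omega
  have hn : n % 2 = 0 ∨ n % 2 = 1 := by omega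
  intro h3
  have h4 := Int.emod_eq_zero_of_dvd h3
  have key : ∀ x y : ℤ, x % 2 = m % 2 → y % 2 = n % 2 →
      (x ^ 3 + c * x ^ 2 * y + d * x * y ^ 2 + e * y ^ 3) % 2 = 0 := by
    intro x y hx hy
    have hx' : x ≡ m [ZMOD 2] := hx
    have hy' : y ≡ n [ZMOD 2] := hy
    have : x ^ 3 + c * x ^ 2 * y + d * x * y ^ 2 + e * y ^ 3 ≡
        m ^ 3 + c * m ^ 2 * n + d * m * n ^ 2 + e * n ^ 3 [ZMOD 2] := by
      gcongr
    rw [← h4]
    exact this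
  rcases hm with hm | hm <;> rcases hn with hn | hn
  · exact h ⟨Int.dvd_of_emod_eq_zero hm, Int.dvd_of_emod_eq_zero hn⟩
  · have := key 0 1 (by rw [hm]; rfl) (by rw [hn]; rfl)
    norm_num at this
    omega
  · have := key 1 0 (by rw [hm]; rfl) (by rw [hn]; rfl)
    norm_num at this
  · have := key 1 1 (by rw [hm]; rfl) (by rw [hn]; rfl)
    norm_num at this
    exact h2 (by omega)

theorem ne_u (t : ℚ) : t ^ 3 - 3 * t - 1 ≠ 0 := by
  have := cubic_ne (c := 0) (d := -3) (e := -1) (odd_form 0 (-3) (-1) (by norm_num) (by norm_num)) t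
  intro h; apply this; push_cast; linarith

theorem ne_v (t : ℚ) : t ^ 3 + 6 * t ^ 2 + 3 * t - 1 ≠ 0 := by
  have := cubic_ne (c := 6) (d := 3) (e := -1) (odd_form 6 3 (-1) (by norm_num) (by norm_num)) t
  intro h; apply this; push_cast; linarith

theorem ne_w (t : ℚ) : t ^ 3 - 3 * t ^ 2 - 6 * t - 1 ≠ 0 := by
  have := cubic_ne (c := -3) (d := -6) (e := -1)
    (odd_form (-3) (-6) (-1) (by norm_num) (by norm_num)) t
  intro h; apply this; push_cast; linarith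

theorem ru_ne (h : 1 < t) : ru t ≠ 0 := by
  have h1 := (pg_pos h).ne'
  have h2 : t + 1 ≠ 0 := by intro h; linarith
  unfold ru
  exact div_ne_zero (mul_ne_zero (mul_ne_zero two_ne_zero h2) (ne_u t)) h1

theorem rv_ne (h : 1 < t) : rv t ≠ 0 := by
  have h1 := (pg_pos h).ne'
  have h2 : t + 1 ≠ 0 := by intro h; linarith
  unfold rv
  exact div_ne_zero (mul_ne_zero (mul_ne_zero two_ne_zero h2) (ne_v t)) h1

theorem rw_ne (h : 1 < t) : rw' t ≠ 0 := by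
  have h1 := (pg_pos h).ne'
  have h2 : t + 1 ≠ 0 := by intro h; linarith
  unfold rw'
  exact div_ne_zero (mul_ne_zero h2 (ne_w t)) h1

theorem base6_ns (h : 1 < t) :
    (Wc (pb t - pa t) (-(pa t * pb t)) 0).Nonsingular (x6 t) (y6 t) := by
  have hD := (pg_pos h).ne'
  have hy : y6 t ^ 2 = x6 t * (x6 t - pa t) * (x6 t + pb t) := by
    have : x6 t * (x6 t - pa t) * (x6 t + pb t) = -x6 t * (pa t - x6 t) * (x6 t + pb t) := by ring
    rw [this, x6_neg, x6_a hD, x6_b hD, y6]; ring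
  apply nonsing_of
  · rw [hy]; ring
  · left
    have p1 := (p6_pos h).ne'
    have p2 := (pc_pos h).ne'
    have p3 := (pn_pos h).ne'
    have p4 := ru_ne h
    have p5 := rv_ne h
    have p7 := rw_ne h
    unfold y6
    positivity

theorem x6_lt (h : 1 < t) : x6 t < 0 := by
  have p1 := p6_pos h
  have p2 := pc_pos h
  have p4 := ru_ne h
  have : 0 < -x6 t := by
    rw [x6_neg]; positivity
  linarith

/-- A prime `p ≥ 5` dividing `m^3 + 3 m^2 n - n^3`. -/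
theorem exists_prime6 (m n : ℕ) (hn : 0 < n) (hmn : n < m) (hco : m.Coprime n) :
    ∃ p : ℕ, p.Prime ∧ 5 ≤ p ∧ (p : ℤ) ∣ (m : ℤ) ^ 3 + 3 * (m : ℤ) ^ 2 * n - (n : ℤ) ^ 3 := by
  have key : ∀ m : ℕ, m ≠ 1 → ¬ 2 ∣ m → ¬ 3 ∣ m → ∃ p, p.Prime ∧ 5 ≤ p ∧ p ∣ m := by
    intro m h1 h2 h3
    refine ⟨m.minFac, Nat.minFac_prime h1, ?_, m.minFac_dvd⟩
    have hp := Nat.minFac_prime h1
    have hd := m.minFac_dvd
    have h4 : m.minFac ≠ 2 := fun h => h2 (h ▸ hd)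
    have h5 : m.minFac ≠ 3 := fun h => h3 (h ▸ hd)
    have h6 := hp.two_le
    have h7 : m.minFac ≠ 4 := by
      intro h; rw [h] at hp; revert hp; norm_num
    omega
  have hle : n ^ 3 ≤ m ^ 3 := Nat.pow_le_pow_left hmn.le 3
  obtain ⟨G, hG⟩ : ∃ G : ℕ, G = m ^ 3 + 3 * m ^ 2 * n - n ^ 3 := ⟨_, rfl⟩
  have hGz : (G : ℤ) = (m : ℤ) ^ 3 + 3 * (m : ℤ) ^ 2 * n - (n : ℤ) ^ 3 := by
    rw [hG, Nat.cast_sub (by omega)]
    push_cast; ring
  have h2 : ¬ 2 ∣ G := by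
    intro h
    have h1 : (2 : ℤ) ∣ (G : ℤ) := by exact_mod_cast h
    have := odd_form 3 0 (-1) (by norm_num) (by norm_num) m n (by
      rintro ⟨ha, hb⟩
      have h3 : (2 : ℕ) ∣ Nat.gcd m n := Nat.dvd_gcd (by exact_mod_cast ha) (by exact_mod_cast hb)
      rw [hco.gcd_eq_one] at h3
      omega)
    apply this
    rw [hGz] at h1
    have e : (m : ℤ) ^ 3 + 3 * (m : ℤ) ^ 2 * n + 0 * m * (n : ℤ) ^ 2 + -1 * (n : ℤ) ^ 3 =
      (m : ℤ) ^ 3 + 3 * (m : ℤ) ^ 2 * n - (n : ℤ) ^ 3 := by ring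
    rw [e]; exact h1
  have h9 : ¬ 9 ∣ G := by
    intro h
    have h1 : (9 : ℤ) ∣ (m : ℤ) ^ 3 + 3 * (m : ℤ) ^ 2 * n - (n : ℤ) ^ 3 := by
      rw [← hGz]; exact_mod_cast h
    have h3 : (3 : ℤ) ∣ (m : ℤ) - n := by
      have h5 : (3 : ℤ) ∣ ((m : ℤ) - n) ^ 3 := by
        have e : ((m : ℤ) - n) ^ 3 = ((m : ℤ) ^ 3 + 3 * (m : ℤ) ^ 2 * n - (n : ℤ) ^ 3) +
          3 * (-2 * (m : ℤ) ^ 2 * n + (m : ℤ) * n ^ 2) := by ring
        rw [e]
        exact dvd_add (dvd_trans (by norm_num) h1) (Dvd.intro _ rfl)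
      exact Prime.dvd_of_dvd_pow (by norm_num) h5
    obtain ⟨k, hk⟩ := h3
    have hm : (m : ℤ) = n + 3 * k := by linarith
    have h5 : (9 : ℤ) ∣ 3 * (n : ℤ) ^ 3 := by
      have e : 3 * (n : ℤ) ^ 3 = ((m : ℤ) ^ 3 + 3 * (m : ℤ) ^ 2 * n - (n : ℤ) ^ 3) -
        9 * (k * n ^ 2 + 3 * k ^ 2 * n + 3 * k ^ 3 + 2 * k * n ^ 2 + 3 * k ^ 2 * n) := by
        rw [hm]; ring
      rw [e]
      exact dvd_sub h1 (Dvd.intro _ rfl)
    have h6 : (3 : ℤ) ∣ (n : ℤ) ^ 3 := by omega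
    have h7 : (3 : ℤ) ∣ (n : ℤ) := Prime.dvd_of_dvd_pow (by norm_num) h6
    have h8 : (3 : ℤ) ∣ (m : ℤ) := by rw [hm]; exact dvd_add h7 (Dvd.intro _ rfl)
    have h10 : (3 : ℕ) ∣ Nat.gcd m n := Nat.dvd_gcd (by exact_mod_cast h8) (by exact_mod_cast h7)
    rw [hco.gcd_eq_one] at h10
    omega
  have hbig : 3 < G := by
    have : n ^ 3 < m ^ 3 := Nat.pow_lt_pow_left hmn (by norm_num)
    have h5 : 3 ≤ 3 * m ^ 2 * n := by
      have hm0 : 0 < m := by omega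
      have : 0 < m ^ 2 * n := by positivity
      nlinarith
    omega
  have hres : ∀ p : ℕ, p ∣ G → (p : ℤ) ∣ (m : ℤ) ^ 3 + 3 * (m : ℤ) ^ 2 * n - (n : ℤ) ^ 3 := by
    intro p hp
    rw [← hGz]; exact_mod_cast hp
  by_cases h3 : 3 ∣ G
  · obtain ⟨r, hr⟩ := h3
    have hr2 : ¬ 2 ∣ r := by
      rintro ⟨j, hj⟩
      exact h2 ⟨3 * j, by rw [hr, hj]; ring⟩
    have hr3 : ¬ 3 ∣ r := by
      rintro ⟨j, hj⟩
      exact h9 ⟨j, by rw [hr, hj]; ring⟩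
    obtain ⟨p, hp, hp5, hpr⟩ := key r (by rintro rfl; omega) hr2 hr3
    exact ⟨p, hp, hp5, hres p (hr ▸ (Dvd.dvd.mul_left hpr 3))⟩
  · obtain ⟨p, hp, hp5, hpr⟩ := key G (by omega) h2 h3
    exact ⟨p, hp, hp5, hres p hpr⟩

/-- A unit criterion. -/
theorem pv_unit {p : ℕ} [Fact p.Prime] {x y : ℚ} (hx : x ∈ OO p) (hy : y ∈ OO p)
    (h : pv p (x * y) = 1) : pv p x = 1 := by
  rw [pv_mul] at h
  have h2 := (mem_OO p).1 hx
  have h3 := (mem_OO p).1 hy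
  have h4 := pv_nonneg p x
  refine le_antisymm h2 ?_
  calc (1 : ℝ) = pv p x * pv p y := h.symm
    _ ≤ pv p x * 1 := mul_le_mul_of_nonneg_left h3 h4
    _ = _ := mul_one _

theorem base6_inf (h1 : 1 < t) (k : ℕ) (hk : 0 < k) :
    k • (Point.some _ _ (base6_ns h1) : (Wc (pb t - pa t) (-(pa t * pb t)) 0).Point) ≠ 0 := by
  have h0 : 0 < t := by linarith
  have hnum : 0 < t.num := Rat.num_pos.2 h0
  have hsd : (t.num.natAbs : ℚ) / t.den = t := by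
    have h3 : (t.num.natAbs : ℚ) = (t.num : ℚ) := by rw [Nat.cast_natAbs, abs_of_pos hnum]
    rw [h3]; exact Rat.num_div_den t
  have hden : (0 : ℚ) < t.den := by exact_mod_cast t.den_pos
  have hlt : t.den < t.num.natAbs := by
    have h2 : (t.den : ℚ) < t.num.natAbs := by
      rw [← hsd, one_lt_div hden] at h1
      exact h1
    exact_mod_cast h2
  obtain ⟨p, hp, hp5, hpd⟩ := exists_prime6 t.num.natAbs t.den t.den_pos hlt t.reduced
  have : Fact p.Prime := ⟨hp⟩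
  set m := t.num.natAbs with hm
  set n := t.den with hn
  have hco : m.Coprime n := t.reduced
  have hpn : ¬ p ∣ n := by
    intro h
    have hz : (p : ℤ) ∣ (n : ℤ) := by exact_mod_cast h
    have h2 : (p : ℤ) ∣ (m : ℤ) ^ 3 := by
      have e : (m : ℤ) ^ 3 = ((m : ℤ) ^ 3 + 3 * (m : ℤ) ^ 2 * n - (n : ℤ) ^ 3) -
        n * (3 * (m : ℤ) ^ 2 - (n : ℤ) ^ 2) := by ring
      rw [e]
      exact dvd_sub hpd (Dvd.dvd.mul_right hz _)
    have h3 : p ∣ m ^ 3 := by exact_mod_cast h2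
    have h4 := Nat.dvd_gcd (hp.dvd_of_dvd_pow h3) h
    rw [hco.gcd_eq_one] at h4
    exact hp.one_lt.ne' (Nat.dvd_one.1 h4)
  have vn : pv p (n : ℚ) = 1 := pv_nat_one hpn
  have hmt : t * n = m := by rw [← hsd]; field_simp
  have mt : t ∈ OO p := by
    rw [mem_OO]
    have h2 : pv p (t * n) ≤ 1 := by
      rw [hmt]; exact (mem_OO p).1 (nat_mem_OO m)
    rwa [pv_mul, vn, mul_one] at h2
  have v2 : pv p (2 : ℚ) = 1 := by
    have := pv_nat_one (p := p) (n := 2)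
      (fun h => absurd (Nat.le_of_dvd (by norm_num) h) (by omega))
    exact_mod_cast this
  have v3 : pv p (3 : ℚ) = 1 := by
    have := pv_nat_one (p := p) (n := 3)
      (fun h => absurd (Nat.le_of_dvd (by norm_num) h) (by omega))
    exact_mod_cast this
  have vg : pv p (pg t) < 1 := by
    have h2 : pv p (pg t * (n : ℚ) ^ 3) < 1 := by
      have e : pg t * (n : ℚ) ^ 3 =
          (((m : ℤ) ^ 3 + 3 * (m : ℤ) ^ 2 * n - (n : ℤ) ^ 3 : ℤ) : ℚ) := by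
        push_cast
        rw [← hmt]; unfold pg; ring
      rw [e]
      obtain ⟨j, hj⟩ := hpd
      rw [hj]
      push_cast
      exact pv_mul_lt p (pv_nat_lt (dvd_refl p)) (intCast_mem (OO p) j)
    rwa [pv_mul, pv_pow, vn, one_pow, mul_one] at h2
  have mk' : ∀ z : ℤ, (z : ℚ) ∈ OO p := fun z => intCast_mem (OO p) z
  have mnum : ∀ z : ℕ, (z : ℚ) ∈ OO p := fun z => natCast_mem (OO p) z
  have m1 : (1 : ℚ) ∈ OO p := one_mem _
  have m2 : (2 : ℚ) ∈ OO p := ofNat_mem_OO p 2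
  have m3 : (3 : ℚ) ∈ OO p := ofNat_mem_OO p 3
  have m4 : (4 : ℚ) ∈ OO p := ofNat_mem_OO p 4
  have mg : pg t ∈ OO p := (mem_OO p).2 vg.le
  have unit : ∀ x y z w : ℚ, x ∈ OO p → y ∈ OO p → w ∈ OO p → pv p z = 1 →
      x * y = z + pg t * w → pv p x = 1 := by
    intro x y z w hx hy hw hz e
    apply pv_unit hx hy
    rw [e, pv_add_eq, hz]
    rw [hz]; exact pv_mul_lt p vg hw
  have vone : pv p (1 : ℚ) = 1 := pv_one p
  have vt : pv p t = 1 := unit t (t ^ 2 + 3 * t) 1 1 mt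
    (add_mem (pow_mem mt 2) (mul_mem m3 mt)) m1 vone (by unfold pg; ring)
  have vt1 : pv p (t + 1) = 1 := unit (t + 1) (t ^ 2 + 2 * t - 2) (-1) 1 (add_mem mt m1)
    (sub_mem (add_mem (pow_mem mt 2) (mul_mem m2 mt)) m2) m1 (by rw [pv_neg, vone])
    (by unfold pg; ring)
  have vt2 : pv p (t - 1) = 1 := unit (t - 1) (t ^ 2 + 4 * t + 4) (-3) 1 (sub_mem mt m1)
    (add_mem (add_mem (pow_mem mt 2) (mul_mem m4 mt)) m4) m1 (by rw [pv_neg, v3])
    (by unfold pg; ring)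
  have vt3 : pv p (t + 2) = 1 := unit (t + 2) (t ^ 2 + t - 2) (-3) 1 (add_mem mt m2)
    (sub_mem (add_mem (pow_mem mt 2) mt) m2) m1 (by rw [pv_neg, v3])
    (by unfold pg; ring)
  have vt4 : pv p (2 * t + 1) = 1 := unit (2 * t + 1) (4 * t ^ 2 + 10 * t - 5) 3 8
    (add_mem (mul_mem m2 mt) m1)
    (sub_mem (add_mem (mul_mem m4 (pow_mem mt 2)) (mul_mem (ofNat_mem_OO p 10) mt))
      (ofNat_mem_OO p 5)) (ofNat_mem_OO p 8) v3 (by unfold pg; ring)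
  have vt5 : pv p (4 * t ^ 2 + t - 1) = 1 := unit (4 * t ^ 2 + t - 1) (7 * t ^ 2 + 16 * t - 12)
    (-1) (28 * t - 13) (sub_mem (add_mem (mul_mem m4 (pow_mem mt 2)) mt) m1)
    (sub_mem (add_mem (mul_mem (ofNat_mem_OO p 7) (pow_mem mt 2))
      (mul_mem (ofNat_mem_OO p 16) mt)) (ofNat_mem_OO p 12))
    (sub_mem (mul_mem (ofNat_mem_OO p 28) mt) (ofNat_mem_OO p 13)) (by rw [pv_neg, vone])
    (by unfold pg; ring)
  have vc : pv p (t ^ 3 - 3 * t - 1) = 1 := by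
    have e : t ^ 3 - 3 * t - 1 = -(3 * t * (t + 1)) + pg t := by unfold pg; ring
    have h5 : pv p (-(3 * t * (t + 1))) = 1 := by
      rw [pv_neg, pv_mul, pv_mul, v3, vt, vt1]; norm_num
    rw [e, pv_add_eq, h5]
    rw [h5]; exact vg
  have v6 : pv p (p6 t) = 1 := by
    have e : p6 t = 3 * (4 * t ^ 2 + t - 1) + pg t * (t ^ 3 + 4 * t ^ 2 + 4 * t - 4) := by
      unfold pg p6; ring
    have h5 : pv p (3 * (4 * t ^ 2 + t - 1)) = 1 := by rw [pv_mul, v3, vt5]; norm_num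
    have h6 : t ^ 3 + 4 * t ^ 2 + 4 * t - 4 ∈ OO p :=
      sub_mem (add_mem (add_mem (pow_mem mt 3) (mul_mem m4 (pow_mem mt 2))) (mul_mem m4 mt)) m4
    rw [e, pv_add_eq, h5]
    rw [h5]; exact pv_mul_lt p vg h6
  have vtau : pv p (ptau t) = 1 := by
    have e : ptau t = t * (t + 2) * ((t - 1) * (t + 1)) := by unfold ptau; ring
    rw [e, pv_mul, pv_mul, pv_mul, vt, vt3, vt2, vt1]; norm_num
  have vx : pv p (x6 t) * pv p (pg t) ^ 2 = 1 := by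
    have hg0 := (pg_pos h1).ne'
    have e : x6 t * pg t ^ 2 = -(p6 t * ((2 * t + 1) * ptau t) *
        (2 * (t + 1) * (t ^ 3 - 3 * t - 1)) ^ 2) := by
      unfold x6 ru pc
      generalize pg t = D at *
      field_simp
    rw [← pv_pow, ← pv_mul, e, pv_neg, pv_mul, pv_mul, pv_mul, pv_pow, pv_mul, pv_mul, v6, vt4,
      vtau, v2, vt1, vc]
    norm_num
  have vxx : 1 < pv p (x6 t) := by
    by_contra hcon
    push Not at hcon
    have h3 := pv_nonneg p (pg t)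
    have h4 : pv p (pg t) ^ 2 < 1 := pow_lt_one₀ h3 vg two_ne_zero
    have h5 : pv p (x6 t) * pv p (pg t) ^ 2 ≤ 1 * pv p (pg t) ^ 2 :=
      mul_le_mul_of_nonneg_right hcon (sq_nonneg _)
    linarith
  have ma : pa t ∈ OO p := by
    unfold pa
    exact mul_mem (mul_mem (mul_mem (ofNat_mem_OO p 16) (pow_mem ((mem_OO p).2 vt4.le) 2))
      (pow_mem ((mem_OO p).2 vtau.le) 2)) (pow_mem ((mem_OO p).2 vt1.le) 2)
  have mq : q6 t ∈ OO p := by
    unfold q6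
    exact add_mem (add_mem (add_mem (add_mem (sub_mem (sub_mem (pow_mem mt 6) (pow_mem mt 5))
      (mul_mem m4 (pow_mem mt 4))) (mul_mem (ofNat_mem_OO p 7) (pow_mem mt 3)))
      (mul_mem (ofNat_mem_OO p 16) (pow_mem mt 2))) (mul_mem (ofNat_mem_OO p 7) mt)) m1
  have mb : pb t ∈ OO p := by
    unfold pb
    exact mul_mem (mul_mem (pow_mem ((mem_OO p).2 vt1.le) 2) ((mem_OO p).2 v6.le)) mq
  exact Pool.Agent.helper45.Tw.inf_of_pv (sub_mem mb ma) (neg_mem (mul_mem ma mb)) (zero_mem _)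
    (base6_ns h1) vxx hk

/-- a class computation -/
theorem class_of {X Y K u r : ℚ} (hK : K ≠ 0) (hu : u ≠ 0) (hr : r ≠ 0) (h : X * Y = r ^ 2)
    (hY : Y = K * u ^ 2) : ∃ v : ℚ, v ≠ 0 ∧ X = K * v ^ 2 := by
  subst hY
  refine ⟨r / (K * u), div_ne_zero hr (mul_ne_zero hK hu), ?_⟩
  rw [div_pow, ← h]
  field_simp

theorem base6 (h1 : 1 < t) (k : ℕ) (x y : ℚ)
    (h' : (Wc (pb t - pa t) (-(pa t * pb t)) 0).Nonsingular x y)
    (hP : (2 * k + 1) • (Point.some _ _ (base6_ns h1) :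
      (Wc (pb t - pa t) (-(pa t * pb t)) 0).Point) = Point.some x y h') :
    x < 0 ∧ ∃ u v w : ℚ, u ≠ 0 ∧ v ≠ 0 ∧ w ≠ 0 ∧ -x = p6 t * pc t * u ^ 2 ∧
      pa t - x = pc t * pn t * v ^ 2 ∧ x + pb t = p6 t * pn t * w ^ 2 := by
  have hD := (pg_pos h1).ne'
  have hpa := pa_pos h1
  have hpb := pb_pos h1
  have p1 := p6_pos h1
  have p2 := pc_pos h1
  have p3 := pn_pos h1
  have hx := x6_lt h1
  have hinf := base6_inf h1
  have hxb : x6 t + pb t ≠ 0 := by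
    rw [x6_b hD]
    exact mul_ne_zero (mul_ne_zero p1.ne' p3.ne') (pow_ne_zero 2 (rw_ne h1))
  obtain ⟨r, hr0, hr⟩ := odd_sq (e := 0) (by ring)
    (by
      have h1 : pa t * pb t ≠ 0 := by positivity
      intro h2; apply h1; linear_combination -h2) (base6_ns h1) hx.ne hinf k hP
  obtain ⟨r', hr0', hr'⟩ := odd_sq (e := pa t) (by ring)
    (by
      have h1 : pa t * (pa t + pb t) ≠ 0 := by positivity
      intro h2; apply h1; linear_combination h2) (base6_ns h1) (by intro h; linarith) hinf k hP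
  obtain ⟨r'', hr0'', hr''⟩ := odd_sq (e := -pb t) (by ring)
    (by
      have h1 : pb t * (pa t + pb t) ≠ 0 := by positivity
      intro h2; apply h1; linear_combination h2) (base6_ns h1)
      (by intro h; apply hxb; rw [h]; ring) hinf k hP
  rw [sub_zero, sub_zero] at hr
  obtain ⟨u, hu0, hu⟩ := class_of (X := -x) (Y := -x6 t) (mul_ne_zero p1.ne' p2.ne')
    (ru_ne h1) hr0 (by rw [← hr]; ring) (x6_neg t)
  obtain ⟨v, hv0, hv⟩ := class_of (X := pa t - x) (Y := pa t - x6 t) (mul_ne_zero p2.ne' p3.ne')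
    (rv_ne h1) hr0' (by rw [← hr']; ring) (x6_a hD)
  obtain ⟨w, hw0, hw⟩ := class_of (X := x + pb t) (Y := x6 t + pb t) (mul_ne_zero p1.ne' p3.ne')
    (rw_ne h1) hr0'' (by rw [← hr'']; ring) (x6_b hD)
  refine ⟨?_, u, v, w, hu0, hv0, hw0, hu, hv, hw⟩
  have : 0 < -x := by rw [hu]; positivity
  linarith

end H28.TW
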