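import Pool.Agent.helper28.TW.Six

set_option autoImplicit false

/-!
# Infinitely many twists of rank at least four: curves with a point of order three
-/

namespace H28.TW

open WeierstrassCurve WeierstrassCurve.Affine Height Polynomial H79.Tw H48.CN

theorem sqfree_int {q : ℚ} (hq : q ≠ 0) :
    ∃ (D : ℤ) (s : ℚ), Squarefree D ∧ s ≠ 0 ∧ q = D * s ^ 2 := by
  obtain ⟨N, s, hN, hs, h1, h2⟩ := squarefree_part hq
  rcases lt_or_gt_of_ne hq with h | h
  · refine ⟨-(N : ℤ), s, ?_, hs, ?_⟩
    · rw [← Int.squarefree_natAbs, Int.natAbs_neg, Int.natAbs_natCast]; exact hN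
    · rw [h2 h]; push_cast; ring
  · refine ⟨(N : ℤ), s, ?_, hs, ?_⟩
    · rw [← Int.squarefree_natAbs, Int.natAbs_natCast]; exact hN
    · rw [h1 h]; push_cast; ring

theorem ne3 (t : ℚ) : 2 + 2 * t - t ^ 2 ≠ 0 := by
  intro h
  have h1 : IsSquare (3 : ℚ) := ⟨t - 1, by linear_combination h⟩
  revert h1
  rw [Rat.isSquare_iff]
  rintro ⟨⟨k, hk⟩, -⟩
  have h2 : (3 : ℚ).num = 3 := rfl
  rw [h2] at hk
  have h4 : -2 < k := by nlinarith
  have h5 : k < 2 := by nlinarith
  interval_cases k <;> omega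

/-- the abscissa where the twist changes its sign -/
def dl (t : ℚ) : ℚ := 4 * (2 * t + 1) ^ 2 * t * (t + 2) * p6 t
/-- the scaling factor -/
def kk (t : ℚ) : ℚ := t ^ 2 / (4 * (2 * t + 1) * (t ^ 2 + t + 1) * pn t * p6 t)
/-- the parameter as a function of the abscissa -/
def uu (t x : ℚ) : ℚ := kk t * (x + dl t)

variable {t : ℚ}

theorem kk_pos (h : 1 < t) : 0 < kk t := by
  have h1 := pn_pos h
  have h2 := p6_pos h
  unfold kk; positivity

theorem dl_pos (h : 1 < t) : 0 < dl t := by
  have h2 := p6_pos h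
  unfold dl; positivity

theorem dl_lt (h : 1 < t) : dl t < pb t := by
  have h1 := pn_pos h
  have h2 := p6_pos h
  have h3 : 0 < t - 1 := by linarith
  have e : pb t = dl t + (t - 1) ^ 2 * pn t * p6 t := by
    unfold pb dl
    have : (t + 1) ^ 2 * q6 t = 4 * (2 * t + 1) ^ 2 * t * (t + 2) + (t - 1) ^ 2 * pn t := by
      unfold q6 pn; ring
    linear_combination p6 t * this
  rw [e]
  have : 0 < (t - 1) ^ 2 * pn t * p6 t := by positivity
  linarith

theorem u_zero (h : 1 < t) : uu t (x6 t) ≠ 0 := by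
  have h1 := pn_pos h
  have h2 := p6_pos h
  have h3 := pg_pos h
  have e : (x6 t + dl t) * pg t ^ 2 =
      4 * (2 * t + 1) * (t ^ 2 + t + 1) * pn t * p6 t * t * (t + 2) * (2 + 2 * t - t ^ 2) := by
    have e1 := sqd (2 * (t + 1) * (t ^ 3 - 3 * t - 1)) h3.ne'
    unfold x6 dl ru pc
    have e2 : 4 * (2 * t + 1) ^ 2 * t * (t + 2) * pg t ^ 2 - (2 * t + 1) * ptau t *
      (2 * (t + 1) * (t ^ 3 - 3 * t - 1)) ^ 2 = 4 * (2 * t + 1) * (t ^ 2 + t + 1) * pn t * t *
        (t + 2) * (2 + 2 * t - t ^ 2) := by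
      unfold pg ptau pn; ring
    linear_combination (-(p6 t * ((2 * t + 1) * ptau t))) * e1 + p6 t * e2
  intro h0
  unfold uu at h0
  have h4 : x6 t + dl t = 0 := by
    rcases mul_eq_zero.1 h0 with h5 | h5
    · exact absurd h5 (kk_pos h).ne'
    · exact h5
  rw [h4, zero_mul] at e
  have h5 : 4 * (2 * t + 1) * (t ^ 2 + t + 1) * pn t * p6 t * t * (t + 2) ≠ 0 := by positivity
  exact mul_ne_zero h5 (ne3 t) e.symm

/-- the first square -/
theorem sq1 (h : 1 < t) {x a : ℚ} (hx : -x = p6 t * pc t * a ^ 2) :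
    -ptau t * cN t * uu t x + ptau t * la t = (ptau t * t * a / (2 * (2 * t + 1))) ^ 2 := by
  have h1 := pn_pos h
  have h2 := p6_pos h
  have hc := c_ne h
  have e1 := cN_mul h
  have e2 := la_mul hc
  have hx' : x = -(p6 t * ((2 * t + 1) * ptau t) * a ^ 2) := by
    unfold pc at hx; linarith
  have hS : t ^ 2 + t + 1 ≠ 0 := by positivity
  have e3 : cN t = (t ^ 2 + t + 1) * pn t / (2 * t + 1) ^ 2 := by
    rw [eq_div_iff (pow_ne_zero 2 hc)]; exact e1
  unfold uu kk dl
  rw [e3, hx']
  unfold la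
  have h1' := h1.ne'
  have h2' := h2.ne'
  generalize pn t = Q at *
  generalize p6 t = P at *
  generalize ptau t = T at *
  field_simp
  ring

/-- the second square -/
theorem sq2 (h : 1 < t) {x w : ℚ} (hx : x + pb t = p6 t * pn t * w ^ 2) :
    4 * (2 * t + 1) * (t ^ 2 + t + 1) * uu t x + t ^ 2 * (t - 1) ^ 2 = (t * w) ^ 2 := by
  have h1 := (pn_pos h).ne'
  have h2 := (p6_pos h).ne'
  have hc := c_ne h
  have hS : t ^ 2 + t + 1 ≠ 0 := by positivity
  have e : pb t = dl t + (t - 1) ^ 2 * pn t * p6 t := by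
    unfold pb dl
    have : (t + 1) ^ 2 * q6 t = 4 * (2 * t + 1) ^ 2 * t * (t + 2) + (t - 1) ^ 2 * pn t := by
      unfold q6 pn; ring
    linear_combination p6 t * this
  have hx' : x + dl t = p6 t * pn t * (w ^ 2 - (t - 1) ^ 2) := by
    rw [e] at hx; linear_combination hx
  unfold uu kk
  rw [hx']
  generalize pn t = Q at *
  generalize p6 t = P at *
  generalize 2 * t + 1 = c at *
  generalize t ^ 2 + t + 1 = S at *
  field_simp
  ring

/-- the third square -/
theorem sq3 (h : 1 < t) {x b : ℚ} (hx : pa t - x = pc t * pn t * b ^ 2) :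
    -ptau t * cA t * uu t x + ptau t * cB t = (ptau t * t * b / 2) ^ 2 := by
  have h1 := (pn_pos h).ne'
  have h2 := (p6_pos h).ne'
  have hc := c_ne h
  have hS : t ^ 2 + t + 1 ≠ 0 := by positivity
  have e : pa t = 4 * (2 * t + 1) ^ 2 * t * (t + 2) * ((2 * t + 1) ^ 2 * pn t - p6 t) := by
    unfold pa ptau pn p6; ring
  have hx' : x + dl t = 4 * (2 * t + 1) ^ 4 * t * (t + 2) * pn t -
      (2 * t + 1) * ptau t * pn t * b ^ 2 := by
    rw [e] at hx; unfold pc at hx; unfold dl; linear_combination -hx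
  unfold uu kk
  rw [hx', cA_eq]
  unfold cB
  generalize pn t = Q at *
  generalize p6 t = P at *
  generalize ptau t = T at *
  generalize 2 * t + 1 = c at *
  generalize t ^ 2 + t + 1 = S at *
  field_simp
  ring

theorem u_lt (h : 1 < t) {x : ℚ} (hx : x < 0) : uu t x < 1 := by
  have hla := la_gt h
  have hc : 0 < 2 * t + 1 := by linarith
  have h1 := pn_pos h
  have h2 := p6_pos h
  have e0 : cN t * (kk t * dl t) = la t := by
    have e3 : cN t = (t ^ 2 + t + 1) * pn t / (2 * t + 1) ^ 2 := by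
      rw [eq_div_iff (pow_ne_zero 2 hc.ne')]; exact cN_mul h
    have hS : t ^ 2 + t + 1 ≠ 0 := by positivity
    rw [e3]
    unfold kk dl la
    have h1' := h1.ne'
    have h2' := h2.ne'
    generalize pn t = Q at *
    generalize p6 t = P at *
    field_simp
  have hN : cN t - la t = (la t - 1) ^ 2 := by unfold cN; ring
  have hN0 : 0 < (la t - 1) ^ 2 := by
    have : 0 < la t - 1 := by linarith
    positivity
  have hcN : 0 < cN t := by linarith
  have h3 : kk t * dl t < 1 := by
    by_contra hcon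
    push Not at hcon
    nlinarith
  unfold uu
  have := kk_pos h
  nlinarith

/-- The theorem for `λ = t^3 (t + 2) / (2 t + 1)`. -/
theorem six (h : 1 < t) :
    {D : ℤ | Squarefree D ∧ ∃ P : Fin 4 → (TW (-(1 + la t)) (la t) D).Point,
      LinearIndependent ℤ P}.Infinite := by
  have hla := la_gt h
  have hα := pa_pos h
  have hβ := pb_pos h
  have hδ := dl_pos h
  have hδβ := dl_lt h
  have hk := kk_pos h
  obtain ⟨F, hF, hstar⟩ := star6 h
  set f : Polynomial ℚ := -((C (kk t) * (X + C (dl t))) * (C (kk t) * (X + C (dl t)) - 1) *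
    (C (kk t) * (X + C (dl t)) - C (la t))) with hf
  have hfe : ∀ x, f.eval x = -(uu t x * (uu t x - 1) * (uu t x - la t)) := by
    intro x
    rw [hf]
    simp only [eval_neg, eval_mul, eval_add, eval_sub, eval_C, eval_X, eval_one]
    rfl
  have hS : {D : ℤ | Squarefree (-D) ∧
      ∃ P : Fin 4 → (TW (-(1 + la t)) (la t) ((-D : ℤ) : ℚ)).Point,
        LinearIndependent ℤ P}.Infinite := by
    refine H17.Tw.engine_of hα hβ (δ := dl t)
      (fun P Q hQ H => Pool.Agent.helper59.Tw.no_arc_left hα hβ hδ P Q hQ H)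
      (fun P Q hQ H => Pool.Agent.helper59.Tw.no_arc_right hα hβ hδ hδβ P Q hQ H)
      (base6_ns h) (x6_lt h) (fun k hk => base6_inf h k hk) f ?_ ?_ ?_ ?_ _
      ({x | uu t x ∈ F} ∪ {x | uu t x = 0}) ?_ ?_
    · have h1 := u_lt h (x6_lt h)
      have h2 := u_zero h
      rw [hfe]
      refine neg_ne_zero.2 (mul_ne_zero (mul_ne_zero h2 ?_) ?_)
      · intro h3; linarith
      · intro h3; linarith
    · rw [hfe]
      have : uu t (-dl t) = 0 := by unfold uu; ring
      rw [this]; ring
    · intro x _ hx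
      have hu : uu t x < 0 := by
        unfold uu
        exact mul_neg_of_pos_of_neg hk (by linarith)
      rw [hfe]
      have h1 : 0 < uu t x * (uu t x - 1) := mul_pos_of_neg_of_neg hu (by linarith)
      have h2 : uu t x * (uu t x - 1) * (uu t x - la t) < 0 :=
        mul_neg_of_pos_of_neg h1 (by linarith)
      linarith
    · intro x hx hx0
      have hu : 0 < uu t x := by
        unfold uu
        exact mul_pos hk (by linarith)
      have hu1 := u_lt h hx0
      rw [hfe]
      have h1 : uu t x * (uu t x - 1) < 0 := mul_neg_of_pos_of_neg hu (by linarith)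
      have h2 : 0 < uu t x * (uu t x - 1) * (uu t x - la t) :=
        mul_pos_of_neg_of_neg h1 (by linarith)
      linarith
    · have hfib : ∀ c, {x | uu t x = c}.Finite := by
        intro c
        have : ¬(kk t = 0 ∧ kk t * dl t - c = 0) := fun h0 => hk.ne' h0.1
        refine (lin_fin this).subset fun x hx => ?_
        have h1 : uu t x = c := hx
        unfold uu at h1
        simp only [Set.mem_ofPred_eq]
        linear_combination h1
      refine Set.Finite.union ?_ (hfib 0)
      refine (hF.biUnion (t := fun c => {x | uu t x = c}) fun c _ => hfib c).subset fun x hx => ?_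
      simp only [Set.mem_iUnion, Set.mem_ofPred_eq, exists_prop]
      exact ⟨uu t x, hx, rfl⟩
    · intro k x y h' hP hx
      simp only [Set.mem_union, Set.mem_ofPred_eq, not_or] at hx
      obtain ⟨hxn, a, b, w, ha, hb, hw, ea, eb, ew⟩ := base6 h k x y h' hP
      have hu1 := u_lt h hxn
      have hfx : f.eval x ≠ 0 := by
        rw [hfe]
        refine neg_ne_zero.2 (mul_ne_zero (mul_ne_zero hx.2 ?_) ?_)
        · intro h3; linarith
        · intro h3; linarith
      obtain ⟨D, s, hD, hs, hDs⟩ := sqfree_int (neg_ne_zero.2 hfx)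
      have hD0 : D ≠ 0 := hD.ne_zero
      refine ⟨-D, ⟨by rw [neg_neg]; exact hD, ?_⟩, s, hs, neg_ne_zero.2 hD0, by
        push_cast; linear_combination -hDs⟩
      rw [neg_neg]
      have hDq : (D : ℚ) ≠ 0 := by exact_mod_cast hD0
      exact hstar (D : ℚ) s (uu t x) _ _ _ hDq hx.1
        (by rw [← hDs, hfe]; ring) (sq1 h ea).symm (sq2 h ew).symm (sq3 h eb).symm
  refine (hS.image (f := fun D : ℤ => -D) (fun a _ b _ hab => neg_injective hab)).mono ?_
  rintro _ ⟨D, hD, rfl⟩
  exact hD

end H28.TW
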