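import Pool.Agent.helper28.TW.Star2
import Pool.Agent.helper28.TW.Base6

set_option autoImplicit false

/-!
# The four maps for the curves with a point of order three
-/

namespace H28.TW

open WeierstrassCurve WeierstrassCurve.Affine Height Polynomial H79.Tw

/-- `λ` -/
def la (t : ℚ) : ℚ := t ^ 3 * (t + 2) / (2 * t + 1)
/-- `λ` of the 3-isogenous curve -/
def la2 (t : ℚ) : ℚ := t * (t + 2) ^ 3 / (2 * t + 1) ^ 3

/-- the 3-isogeny on `x`-coordinates -/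
def iso (t x : ℚ) : ℚ :=
  x * ((2 * t + 1) ^ 2 * x - 3 * t * (t + 2)) ^ 2 / (3 * (2 * t + 1) * x - (t + 2) ^ 2) ^ 2
/-- its companion -/
def psi (t x : ℚ) : ℚ :=
  ((2 * t + 1) ^ 2 * x - 3 * t * (t + 2)) * ((2 * t + 1) ^ 2 * x - (t + 2) ^ 2) *
    ((2 * t + 1) ^ 2 * x - (2 * t + 1) * t * (t + 2)) / (3 * (2 * t + 1) * x - (t + 2) ^ 2) ^ 3

theorem iso_id {t : ℚ} (hc : 2 * t + 1 ≠ 0) (x : ℚ) :
    iso t x * (iso t x ^ 2 + (-(1 + la t)) * iso t x + la t) =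
      x * (x - 1) * (x - la2 t) * psi t x ^ 2 := by
  by_cases hE : 3 * (2 * t + 1) * x - (t + 2) ^ 2 = 0
  · unfold iso psi
    rw [hE]; simp
  have h1 : iso t x - 1 = (x - 1) * ((2 * t + 1) ^ 2 * x - (t + 2) ^ 2) ^ 2 /
      (3 * (2 * t + 1) * x - (t + 2) ^ 2) ^ 2 := by
    unfold iso
    rw [div_sub_one (pow_ne_zero 2 hE)]
    congr 1
    ring
  have h2 : iso t x - la t = (x - la2 t) * ((2 * t + 1) ^ 2 * x - (2 * t + 1) * t * (t + 2)) ^ 2 /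
      (3 * (2 * t + 1) * x - (t + 2) ^ 2) ^ 2 := by
    unfold iso la la2
    rw [eq_div_iff (pow_ne_zero 2 hE), sub_mul, div_mul_cancel₀ _ (pow_ne_zero 2 hE)]
    field_simp
    ring
  have h3 : iso t x * (iso t x ^ 2 + (-(1 + la t)) * iso t x + la t) =
      iso t x * (iso t x - 1) * (iso t x - la t) := by ring
  rw [h3, h1, h2]
  unfold iso psi
  generalize 3 * (2 * t + 1) * x - (t + 2) ^ 2 = E at *
  generalize la2 t = l at *
  field_simp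

/-- coefficient -/
def cN (t : ℚ) : ℚ := la t ^ 2 - la t + 1
/-- coefficient -/
def cB (t : ℚ) : ℚ := t ^ 3 * (t + 2) * (2 * t + 1) ^ 3
/-- coefficient -/
def cA (t : ℚ) : ℚ := cB t + (t ^ 2 - 1) ^ 4

/-- the third map -/
def m3 (t u : ℚ) : ℚ := la t ^ 2 * (u - 1) / (cN t * u - la t)
/-- its companion -/
def o3 (t u : ℚ) : ℚ :=
  t * (t + 1) / (2 * t + 1) * (la t * (la t - 1)) / (cN t * u - la t) ^ 2
/-- linear form -/
def l5 (t u : ℚ) : ℚ := 4 * (2 * t + 1) * (t ^ 2 + t + 1) * u + t ^ 2 * (t - 1) ^ 2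
/-- the fifth map -/
def m5 (t u : ℚ) : ℚ := (t + 1) ^ 2 * (t + 2) ^ 2 * u / l5 t u
/-- its companion -/
def o5 (t u : ℚ) : ℚ :=
  (t + 1) * (t + 2) ^ 2 * t * (t - 1) ^ 2 / (2 * t + 1) / l5 t u ^ 2
/-- linear form -/
def l9 (t u : ℚ) : ℚ := cA t * u - cB t
/-- the ninth map -/
def m9 (t u : ℚ) : ℚ := t ^ 4 * (t + 2) ^ 4 * (u - 1) / l9 t u
/-- its companion -/
def o9 (t u : ℚ) : ℚ :=
  t ^ 2 * (t + 2) ^ 3 * (t - 1) * (t ^ 2 - 1) ^ 2 / (2 * t + 1) / l9 t u ^ 2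

theorem la_mul {t : ℚ} (hc : 2 * t + 1 ≠ 0) : la t * (2 * t + 1) = t ^ 3 * (t + 2) := by
  unfold la; rw [div_mul_cancel₀ _ hc]

theorem la2_mul {t : ℚ} (hc : 2 * t + 1 ≠ 0) : la2 t * (2 * t + 1) ^ 3 = t * (t + 2) ^ 3 := by
  unfold la2; rw [div_mul_cancel₀ _ (pow_ne_zero 3 hc)]

theorem la_la {t : ℚ} (hc : 2 * t + 1 ≠ 0) :
    la t * (la t - 1) = ptau t * (t * (t + 1) / (2 * t + 1)) ^ 2 := by
  have h := la_mul hc
  apply mul_right_cancel₀ (pow_ne_zero 2 hc)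
  unfold ptau
  linear_combination (la t * (2 * t + 1) + t ^ 3 * (t + 2) - (2 * t + 1)) * h -
    (t * (t + 2) * (t ^ 2 - 1)) * sqd (t * (t + 1)) hc

theorem mob_prod {x1 x2 x3 D M l : ℚ} (h1 : M = x1 / D) (h2 : M - 1 = x2 / D)
    (h3 : M - l = x3 / D) : M * (M ^ 2 + (-(1 + l)) * M + l) = x1 * x2 * x3 / D ^ 3 := by
  have : M * (M ^ 2 + (-(1 + l)) * M + l) = M * (M - 1) * (M - l) := by ring
  rw [this, h2, h3, h1]
  ring

theorem m3_id {t : ℚ} (hc : 2 * t + 1 ≠ 0) (u : ℚ) :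
    m3 t u * (m3 t u ^ 2 + (-(1 + la t)) * m3 t u + la t) =
      u * (u ^ 2 + (-(1 + la t)) * u + la t) * (-ptau t * cN t * u + ptau t * la t) *
        o3 t u ^ 2 := by
  have h0 := la_la hc
  unfold m3 o3
  have hN : cN t = la t ^ 2 - la t + 1 := rfl
  generalize t * (t + 1) / (2 * t + 1) = q at *
  generalize ptau t = T at *
  generalize la t = l at *
  generalize cN t = n at *
  by_cases hd : n * u - l = 0
  · rw [hd]; simp
  rw [mob_prod (x1 := l ^ 2 * (u - 1)) (x2 := (l - 1) * (u - l)) (x3 := -(l * (l - 1) ^ 2 * u))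
    (D := n * u - l) rfl (by rw [div_sub_one hd]; congr 1; rw [hN]; ring)
    (by rw [div_sub' hd]; congr 1; rw [hN]; ring)]
  have h1 : -T * n * u + T * l = -T * (n * u - l) := by ring
  rw [h1]
  generalize n * u - l = D at *
  rw [div_pow, mul_div_assoc', div_eq_div_iff (pow_ne_zero 3 hd) (pow_ne_zero 2 (pow_ne_zero 2 hd))]
  linear_combination (-(D ^ 4 * l ^ 2 * (l - 1) ^ 2 * u * (u - 1) * (u - l))) * h0

theorem m5_id {t : ℚ} (hc : 2 * t + 1 ≠ 0) (u : ℚ) :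
    m5 t u * (m5 t u ^ 2 + (-(1 + la2 t)) * m5 t u + la2 t) =
      u * (u ^ 2 + (-(1 + la t)) * u + la t) *
      (4 * (2 * t + 1) * (t ^ 2 + t + 1) * u + t ^ 2 * (t - 1) ^ 2) * o5 t u ^ 2 := by
  have hl : l5 t u = 4 * (2 * t + 1) * (t ^ 2 + t + 1) * u + t ^ 2 * (t - 1) ^ 2 := rfl
  unfold m5 o5
  by_cases hd : l5 t u = 0
  · rw [hd]; simp
  have e1 := la_mul hc
  have e2 := la2_mul hc
  rw [mob_prod (x1 := (t + 1) ^ 2 * (t + 2) ^ 2 * u) (x2 := t ^ 2 * (t - 1) ^ 2 * (u - 1))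
    (x3 := (t + 2) ^ 2 * (t - 1) ^ 2 * (u - la t) / (2 * t + 1) ^ 2)
    (D := l5 t u) rfl (by rw [div_sub_one hd]; congr 1; rw [hl]; ring)
    (by
      rw [div_sub' hd]; congr 1
      rw [eq_div_iff (pow_ne_zero 2 hc)]
      apply mul_left_cancel₀ hc
      rw [hl]
      linear_combination
        (-((4 * (2 * t + 1) * (t ^ 2 + t + 1) * u + t ^ 2 * (t - 1) ^ 2))) * e2 +
        ((t + 2) ^ 2 * (t - 1) ^ 2) * e1)]
  rw [← hl]
  generalize l5 t u = D at *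
  field_simp
  ring

theorem m9_id {t : ℚ} (hc : 2 * t + 1 ≠ 0) (u : ℚ) :
    m9 t u * (m9 t u ^ 2 + (-(1 + la2 t)) * m9 t u + la2 t) =
      u * (u ^ 2 + (-(1 + la t)) * u + la t) *
      (-ptau t * cA t * u + ptau t * cB t) * o9 t u ^ 2 := by
  have hl : l9 t u = cA t * u - cB t := rfl
  unfold m9 o9
  by_cases hd : l9 t u = 0
  · rw [hd]; simp
  have e1 := la_mul hc
  have e2 := la2_mul hc
  rw [mob_prod (x1 := t ^ 4 * (t + 2) ^ 4 * (u - 1))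
    (x2 := (2 * t + 1) * (t + 1) * (t - 1) ^ 3 * (u - la t))
    (x3 := -(la2 t * (t ^ 2 - 1) ^ 4 * u))
    (D := l9 t u) rfl
    (by
      rw [div_sub_one hd]; congr 1; rw [hl]; unfold cA cB
      linear_combination ((t + 1) * (t - 1) ^ 3) * e1)
    (by
      rw [div_sub' hd]; congr 1
      rw [hl]; unfold cA cB
      linear_combination ((t ^ 3 * (t + 2)) * (1 - u)) * e2)]
  have h1 : -ptau t * cA t * u + ptau t * cB t = -ptau t * l9 t u := by rw [hl]; ring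
  rw [h1]
  have h2 : la2 t = t * (t + 2) ^ 3 / (2 * t + 1) ^ 3 := rfl
  rw [h2]
  generalize l9 t u = D at *
  unfold ptau
  field_simp
  ring

end H28.TW
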