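import Pool.Agent.helper28.TW.Final6
import Pool.Agent.helper79.Tw.Gen3
import Pool.Agent.helper79.Tw.Gen4

set_option autoImplicit false

/-!
# Curves with full rational 2-torsion and a point of order three or four on some twist
-/

namespace H28.TW

open WeierstrassCurve WeierstrassCurve.Affine Height Polynomial H79.Tw H48.CN H4.Tw

/-- Infinitely many twists of `y^2 = (x - e₁) (x - e₂) (x - e₃)` by squarefree integers have at least
four independent points. -/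
def Four (e₁ e₂ e₃ : ℚ) : Prop :=
  {D : ℤ | Squarefree D ∧ ∃ P : Fin 4 → (Wt e₁ e₂ e₃ D).Point, LinearIndependent ℤ P}.Infinite

theorem four12 {e₁ e₂ e₃ : ℚ} (h : Four e₂ e₁ e₃) : Four e₁ e₂ e₃ := by
  unfold Four at *; rw [Wt_swap12]; exact h

theorem four23 {e₁ e₂ e₃ : ℚ} (h : Four e₁ e₃ e₂) : Four e₁ e₂ e₃ := by
  unfold Four at *; rw [Wt_swap23]; exact h

theorem leg_transfer {e₁ e₂ e₃ l : ℚ} (hg : e₃ - e₁ ≠ 0) (hlg : l * (e₃ - e₁) = e₂ - e₁)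
    (h : {N : ℤ | Squarefree N ∧ ∃ P : Fin 4 → (TW (-(1 + l)) l N).Point,
      LinearIndependent ℤ P}.Infinite) : Four e₁ e₂ e₃ := by
  refine transfer (g := e₃ - e₁) hg (fun N => TW (-(1 + l)) l N) (Wt e₁ e₂ e₃) ?_ h
  intro N D k _ _ hk hD
  have hlu : l * (N * k ^ 2) = D * (e₂ - e₁) := by rw [← hD, ← hlg]; ring
  have hu : N * k ^ 2 = D * (e₃ - e₁) := hD.symm
  refine H25.Tw.transport hk (r := D * e₁) ?_ ?_ ?_
  · have : -(1 + l) * N * k ^ 2 = -(N * k ^ 2) - l * (N * k ^ 2) := by ring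
    rw [this, hlu, hu]; ring
  · have h5 : l * N ^ 2 * k ^ 4 = (l * (N * k ^ 2)) * (N * k ^ 2) := by ring
    have h6 : 2 * (D * e₁) * (-(1 + l) * N) * k ^ 2 =
      2 * (D * e₁) * (-(N * k ^ 2) - l * (N * k ^ 2)) := by ring
    rw [h5, h6, hlu, hu]; ring
  · have h5 : l * N ^ 2 * k ^ 4 = (l * (N * k ^ 2)) * (N * k ^ 2) := by ring
    have h6 : -(1 + l) * N * k ^ 2 = -(N * k ^ 2) - l * (N * k ^ 2) := by ring
    rw [h5, h6, hlu, hu]; ring

/-! ### Order three -/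

theorem core3 {e₁ e₂ e₃ d x a b c : ℚ} (hd : d ≠ 0) (hb : b ≠ 0)
    (habc : a * b + b * c + c * a = 0) (hbc : 0 < b * c) (hlt : b ^ 2 < c ^ 2)
    (h1 : d * e₁ = x - a ^ 2) (h2 : d * e₂ = x - b ^ 2) (h3 : d * e₃ = x - c ^ 2) :
    Four e₁ e₂ e₃ := by
  have hbb : 0 < b ^ 2 := by positivity
  obtain ⟨t, ht⟩ : ∃ t, c = t * b := ⟨c / b, by field_simp⟩
  have ht1 : 1 < t := by
    have h4 : 0 < t := by
      rw [ht] at hbc
      by_contra hcon
      push Not at hcon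
      nlinarith
    rw [ht] at hlt
    by_contra hcon
    push Not at hcon
    have : t ^ 2 ≤ 1 := by nlinarith
    nlinarith
  have hc := c_ne ht1
  have ht10 : 1 + t ≠ 0 := by intro h; linarith
  have haa : a * (1 + t) = -(t * b) := by
    apply mul_left_cancel₀ hb
    rw [ht] at habc
    linear_combination habc
  -- the two differences
  have k1 : d * (e₂ - e₁) * (1 + t) ^ 2 = -((2 * t + 1) * b ^ 2) := by
    have : d * (e₂ - e₁) = a ^ 2 - b ^ 2 := by linear_combination h2 - h1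
    rw [this]
    linear_combination (a * (1 + t) - t * b) * haa
  have k2 : d * (e₃ - e₁) * (1 + t) ^ 2 = -(t ^ 3 * (t + 2) * b ^ 2) := by
    have : d * (e₃ - e₁) = a ^ 2 - c ^ 2 := by linear_combination h3 - h1
    rw [this, ht]
    linear_combination (a * (1 + t) - t * b) * haa
  have hg : e₂ - e₁ ≠ 0 := by
    intro h0
    rw [h0, mul_zero, zero_mul] at k1
    have : (2 * t + 1) * b ^ 2 ≠ 0 := mul_ne_zero hc hbb.ne'
    apply this; linarith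
  apply four23
  refine leg_transfer (l := la t) hg ?_ (six ht1)
  have hd2 : d * (1 + t) ^ 2 * (2 * t + 1) ≠ 0 :=
    mul_ne_zero (mul_ne_zero hd (pow_ne_zero 2 ht10)) hc
  apply mul_left_cancel₀ hd2
  have e := la_mul hc
  linear_combination (la t * (2 * t + 1)) * k1 - (2 * t + 1) * k2 - ((2 * t + 1) * b ^ 2) * e

theorem core3' {e₁ e₂ e₃ d x a b c : ℚ} (hd : d ≠ 0) (hb : b ≠ 0) (hc : c ≠ 0)
    (habc : a * b + b * c + c * a = 0) (hbc : 0 < b * c) (hne : b ^ 2 ≠ c ^ 2)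
    (h1 : d * e₁ = x - a ^ 2) (h2 : d * e₂ = x - b ^ 2) (h3 : d * e₃ = x - c ^ 2) :
    Four e₁ e₂ e₃ := by
  rcases lt_or_gt_of_ne hne with h | h
  · exact core3 hd hb habc hbc h h1 h2 h3
  · apply four23
    exact core3 hd hc (by linarith) (by linarith) h h1 h3 h2

theorem core3'' {e₁ e₂ e₃ d x a b c : ℚ} (hd : d ≠ 0) (h12 : e₁ ≠ e₂) (h13 : e₁ ≠ e₃)
    (h23 : e₂ ≠ e₃) (ha : a ≠ 0) (hb : b ≠ 0) (hc : c ≠ 0)
    (habc : a * b + b * c + c * a = 0)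
    (h1 : d * e₁ = x - a ^ 2) (h2 : d * e₂ = x - b ^ 2) (h3 : d * e₃ = x - c ^ 2) :
    Four e₁ e₂ e₃ := by
  have n12 : a ^ 2 ≠ b ^ 2 := by
    intro h; apply h12; apply mul_left_cancel₀ hd; linarith
  have n13 : a ^ 2 ≠ c ^ 2 := by
    intro h; apply h13; apply mul_left_cancel₀ hd; linarith
  have n23 : b ^ 2 ≠ c ^ 2 := by
    intro h; apply h23; apply mul_left_cancel₀ hd; linarith
  have hab0 : a * b ≠ 0 := mul_ne_zero ha hb
  have hbc0 : b * c ≠ 0 := mul_ne_zero hb hc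
  have hca0 : c * a ≠ 0 := mul_ne_zero hc ha
  rcases lt_or_gt_of_ne hbc0 with h | h
  · rcases lt_or_gt_of_ne hca0 with h' | h'
    · -- a * b > 0
      have h'' : 0 < a * b := by linarith
      -- order (c; a, b)
      apply four23
      apply four12
      exact core3' hd ha hb (by linarith) h'' n12 h3 h1 h2
    · -- order (b; a, c)
      apply four12
      exact core3' hd ha hc (by linarith) (by linarith) n13 h2 h1 h3
  · exact core3' hd hb hc habc h n23 h1 h2 h3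

theorem sq_of {q r : ℚ} (hq : q ≠ 0) (h : IsSquare (r * (q * q))) : IsSquare r := by
  obtain ⟨s, hs⟩ := h
  refine ⟨s / q, ?_⟩
  field_simp
  linear_combination hs

/-- A root of the cubic. -/
structure Root (A B C e : ℚ) : Prop where
  zero : e ^ 3 + A * e ^ 2 + B * e + C = 0
  simple : 3 * e ^ 2 + 2 * A * e + B ≠ 0

theorem order3_sq {A B C e x y : ℚ} (he : Root A B C e) (h : (Wc A B C).Nonsingular x y)
    (hy : y ≠ 0) (h3 : (3 : ℕ) • (Point.some x y h : (Wc A B C).Point) = 0) :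
    ∃ a : ℚ, a ≠ 0 ∧ x - e = a ^ 2 := by
  have hxe : x ≠ e := by
    rintro rfl
    apply hy
    have : y ^ 2 = 0 := by rw [eqn_iff.1 h.1, he.zero]
    exact pow_eq_zero_iff two_ne_zero |>.1 this
  set P : (Wc A B C).Point := Point.some x y h with hP
  have h2 : P + P = -P := by
    have : P + P + P = 0 := by
      rw [← h3]
      rw [show (3 : ℕ) = 1 + 1 + 1 from rfl, add_nsmul, add_nsmul, one_nsmul]
    exact eq_neg_of_add_eq_zero_left this
  have hs := dval_mul he.zero P P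
  rw [h2, dval_neg] at hs
  have hd : dval e P = x - e := by rw [hP, dval_some, if_neg hxe]
  rw [hd] at hs
  obtain ⟨a, ha⟩ := sq_of (sub_ne_zero.2 hxe) hs
  refine ⟨a, ?_, by rw [ha]; ring⟩
  rintro rfl
  rw [mul_zero] at ha
  exact sub_ne_zero.2 hxe ha

theorem roots_Wt {e₁ e₂ e₃ d : ℚ} (hd : d ≠ 0) (h12 : e₁ ≠ e₂) (h13 : e₁ ≠ e₃) :
    Root (-(d * (e₁ + e₂ + e₃))) (d ^ 2 * (e₁ * e₂ + e₁ * e₃ + e₂ * e₃))
      (-(d ^ 3 * (e₁ * e₂ * e₃))) (d * e₁) := by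
  refine ⟨by ring, ?_⟩
  have : 3 * (d * e₁) ^ 2 + 2 * -(d * (e₁ + e₂ + e₃)) * (d * e₁) +
    d ^ 2 * (e₁ * e₂ + e₁ * e₃ + e₂ * e₃) = d ^ 2 * ((e₁ - e₂) * (e₁ - e₃)) := by ring
  rw [this]
  exact mul_ne_zero (pow_ne_zero 2 hd) (mul_ne_zero (sub_ne_zero.2 h12) (sub_ne_zero.2 h13))

theorem y_ne_of {A B C x y : ℚ} (h : (Wc A B C).Nonsingular x y)
    (h2 : (2 : ℕ) • (Point.some x y h : (Wc A B C).Point) ≠ 0) : y ≠ 0 := by
  rintro rfl
  apply h2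
  rw [two_nsmul]
  exact Point.add_of_Y_eq rfl (by rw [negY_eq, neg_zero])

theorem order3_gen {e₁ e₂ e₃ d A B C : ℚ} (hd : d ≠ 0) (h12 : e₁ ≠ e₂) (h13 : e₁ ≠ e₃)
    (h23 : e₂ ≠ e₃) (hA : A = -(d * (e₁ + e₂ + e₃)))
    (hB : B = d ^ 2 * (e₁ * e₂ + e₁ * e₃ + e₂ * e₃)) (hC : C = -(d ^ 3 * (e₁ * e₂ * e₃)))
    (P : (Wc A B C).Point) (h3P : (3 : ℕ) • P = 0) (h2P : (2 : ℕ) • P ≠ 0) : Four e₁ e₂ e₃ := by
  have r1 : Root A B C (d * e₁) := by
    have := roots_Wt (e₁ := e₁) (e₂ := e₂) (e₃ := e₃) hd h12 h13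
    rwa [← hA, ← hB, ← hC] at this
  have r2 : Root A B C (d * e₂) := by
    have := roots_Wt (e₁ := e₂) (e₂ := e₁) (e₃ := e₃) hd h12.symm h23
    have q1 : -(d * (e₂ + e₁ + e₃)) = A := by rw [hA]; ring
    have q2 : d ^ 2 * (e₂ * e₁ + e₂ * e₃ + e₁ * e₃) = B := by rw [hB]; ring
    have q3 : -(d ^ 3 * (e₂ * e₁ * e₃)) = C := by rw [hC]; ring
    rwa [q1, q2, q3] at this
  have r3 : Root A B C (d * e₃) := by
    have := roots_Wt (e₁ := e₃) (e₂ := e₁) (e₃ := e₂) hd h13.symm h23.symm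
    have q1 : -(d * (e₃ + e₁ + e₂)) = A := by rw [hA]; ring
    have q2 : d ^ 2 * (e₃ * e₁ + e₃ * e₂ + e₁ * e₂) = B := by rw [hB]; ring
    have q3 : -(d ^ 3 * (e₃ * e₁ * e₂)) = C := by rw [hC]; ring
    rwa [q1, q2, q3] at this
  rcases P with _ | ⟨x, y, h⟩
  · exact absurd (nsmul_zero 2) h2P
  have hy := y_ne_of h h2P
  obtain ⟨a, ha, ea⟩ := order3_sq r1 h hy h3P
  obtain ⟨b, hb, eb⟩ := order3_sq r2 h hy h3P
  obtain ⟨c, hc, ec⟩ := order3_sq r3 h hy h3P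
  -- the flex condition
  obtain ⟨l, hl⟩ : ∃ l : ℚ, l * (2 * y) = 3 * x ^ 2 + 2 * A * x + B :=
    ⟨(3 * x ^ 2 + 2 * A * x + B) / (2 * y), by field_simp⟩
  obtain ⟨h', e⟩ := double_rel h hy hl
  have h2 : (2 : ℕ) • (Point.some x y h : (Wc A B C).Point) = -Point.some x y h := by
    have : (2 : ℕ) • (Point.some x y h : (Wc A B C).Point) + Point.some x y h = 0 := by
      rw [← h3P, show (3 : ℕ) = 2 + 1 from rfl, add_nsmul _ 2 1, one_nsmul]
    exact eq_neg_of_add_eq_zero_left this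
  rw [h2, Point.neg_some] at e
  obtain ⟨ex, -⟩ := Point.some.inj e
  have hx1 : x = d * e₁ + a ^ 2 := by linear_combination ea
  have hx2 : d * e₂ = x - b ^ 2 := by linear_combination -eb
  have hx3 : d * e₃ = x - c ^ 2 := by linear_combination -ec
  have hx1' : d * e₁ = x - a ^ 2 := by linear_combination -ea
  have hl2 : l ^ 2 = a ^ 2 + b ^ 2 + c ^ 2 := by
    have : A = -(x - a ^ 2 + (x - b ^ 2) + (x - c ^ 2)) := by
      rw [hA, ← hx1', ← hx2, ← hx3]; ring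
    linear_combination -ex + this
  have hf' : 3 * x ^ 2 + 2 * A * x + B = a ^ 2 * b ^ 2 + b ^ 2 * c ^ 2 + c ^ 2 * a ^ 2 := by
    have h1 : A = -(x - a ^ 2 + (x - b ^ 2) + (x - c ^ 2)) := by
      rw [hA, ← hx1', ← hx2, ← hx3]; ring
    have h2 : B = (x - a ^ 2) * (x - b ^ 2) + (x - a ^ 2) * (x - c ^ 2) +
        (x - b ^ 2) * (x - c ^ 2) := by
      rw [hB, ← hx1', ← hx2, ← hx3]; ring
    rw [h1, h2]; ring
  have hy2 : y ^ 2 = a ^ 2 * b ^ 2 * c ^ 2 := by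
    have h0 := eqn_iff.1 h.1
    have h1 : A = -(x - a ^ 2 + (x - b ^ 2) + (x - c ^ 2)) := by
      rw [hA, ← hx1', ← hx2, ← hx3]; ring
    have h2 : B = (x - a ^ 2) * (x - b ^ 2) + (x - a ^ 2) * (x - c ^ 2) +
        (x - b ^ 2) * (x - c ^ 2) := by
      rw [hB, ← hx1', ← hx2, ← hx3]; ring
    have h3 : C = -((x - a ^ 2) * (x - b ^ 2) * (x - c ^ 2)) := by
      rw [hC, ← hx1', ← hx2, ← hx3]; ring
    rw [h0, h1, h2, h3]; ring
  have key : (a * b + b * c + c * a) * (-(a * b) + b * c - c * a) * (-(a * b) - b * c + c * a) *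
      (a * b - b * c - c * a) = 0 := by
    have h1 : (l * (2 * y)) ^ 2 = 4 * (l ^ 2) * (y ^ 2) := by ring
    rw [hl, hf', hl2, hy2] at h1
    linear_combination h1
  have fin : ∀ a' b' c' : ℚ, a' ^ 2 = a ^ 2 → b' ^ 2 = b ^ 2 → c' ^ 2 = c ^ 2 → a' ≠ 0 → b' ≠ 0 →
      c' ≠ 0 → a' * b' + b' * c' + c' * a' = 0 → Four e₁ e₂ e₃ := by
    intro a' b' c' e1 e2 e3 n1 n2 n3 hs
    exact core3'' hd h12 h13 h23 n1 n2 n3 hs (by rw [e1]; exact hx1') (by rw [e2]; exact hx2)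
      (by rw [e3]; exact hx3)
  rcases mul_eq_zero.1 key with h1 | h1
  · rcases mul_eq_zero.1 h1 with h1 | h1
    · rcases mul_eq_zero.1 h1 with h1 | h1
      · exact fin a b c rfl rfl rfl ha hb hc h1
      · exact fin (-a) b c (by ring) rfl rfl (neg_ne_zero.2 ha) hb hc (by linear_combination h1)
    · exact fin a (-b) c rfl (by ring) rfl ha (neg_ne_zero.2 hb) hc (by linear_combination h1)
  · exact fin a b (-c) rfl rfl (by ring) ha hb (neg_ne_zero.2 hc) (by linear_combination h1)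

theorem order3 {e₁ e₂ e₃ d : ℚ} (hd : d ≠ 0) (h12 : e₁ ≠ e₂) (h13 : e₁ ≠ e₃) (h23 : e₂ ≠ e₃)
    (P : (Wt e₁ e₂ e₃ d).Point) (hP : addOrderOf P = 3) : Four e₁ e₂ e₃ := by
  have h3P : (3 : ℕ) • P = 0 := by rw [← hP]; exact addOrderOf_nsmul_eq_zero P
  have h2P : (2 : ℕ) • P ≠ 0 := by
    intro h
    have := addOrderOf_dvd_of_nsmul_eq_zero h
    rw [hP] at this
    omega
  exact order3_gen hd h12 h13 h23 rfl rfl rfl P h3P h2P

/-! ### Order four -/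

theorem core4 {e₁ e₂ e₃ d a b : ℚ} (hd : d ≠ 0) (h12 : e₁ ≠ e₂) (h13 : e₁ ≠ e₃)
    (h23 : e₂ ≠ e₃) (h1 : d * e₁ - d * e₂ = a ^ 2) (h2 : d * e₁ - d * e₃ = b ^ 2) :
    Four e₁ e₂ e₃ := by
  have ha : a ≠ 0 := by
    rintro rfl
    apply h12; apply mul_left_cancel₀ hd; linarith
  have hb : b ≠ 0 := by
    rintro rfl
    apply h13; apply mul_left_cancel₀ hd; linarith
  have hab : a ^ 2 ≠ b ^ 2 := by
    intro h; apply h23; apply mul_left_cancel₀ hd; linarith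
  refine transfer (g := 1 / d) (one_div_ne_zero hd) (Wt 0 (-a ^ 2) (-b ^ 2)) (Wt e₁ e₂ e₃) ?_
    (all_infinite4 ha hb hab)
  intro N D k _ _ hk hD
  have hDN : D = d * (N * k ^ 2) := by
    rw [← hD]; field_simp
  have hu : -a ^ 2 * (N * k ^ 2) = D * (e₂ - e₁) := by rw [hDN]; linear_combination (N * k ^ 2) * h1
  have hv : -b ^ 2 * (N * k ^ 2) = D * (e₃ - e₁) := by rw [hDN]; linear_combination (N * k ^ 2) * h2
  refine H25.Tw.transport hk (r := D * e₁) ?_ ?_ ?_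
  · linear_combination hu + hv
  · linear_combination (-(-b ^ 2 * (N * k ^ 2) + 2 * (D * e₁))) * hu -
      (D * (e₂ - e₁) + 2 * (D * e₁)) * hv
  · linear_combination ((D * e₁) * (-b ^ 2 * (N * k ^ 2)) + (D * e₁) ^ 2) * hu +
      ((D * e₁) * (D * (e₂ - e₁)) + (D * e₁) ^ 2) * hv

theorem double_sq {A B C e : ℚ} (he : Root A B C e) (P Q : (Wc A B C).Point)
    (h : (2 : ℕ) • P = Q) : IsSquare (dval e Q) := by
  have hs := dval_mul he.zero P P
  rw [← two_nsmul, h] at hs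
  exact sq_of (dval_ne_zero he.simple P) hs

theorem order4_gen {e₁ e₂ e₃ d A B C : ℚ} (hd : d ≠ 0) (h12 : e₁ ≠ e₂) (h13 : e₁ ≠ e₃)
    (h23 : e₂ ≠ e₃) (hA : A = -(d * (e₁ + e₂ + e₃)))
    (hB : B = d ^ 2 * (e₁ * e₂ + e₁ * e₃ + e₂ * e₃)) (hC : C = -(d ^ 3 * (e₁ * e₂ * e₃)))
    (P : (Wc A B C).Point) (h4P : (4 : ℕ) • P = 0) (h2P : (2 : ℕ) • P ≠ 0) : Four e₁ e₂ e₃ := by
  have r1 : Root A B C (d * e₁) := by
    have := roots_Wt (e₁ := e₁) (e₂ := e₂) (e₃ := e₃) hd h12 h13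
    rwa [← hA, ← hB, ← hC] at this
  have r2 : Root A B C (d * e₂) := by
    have := roots_Wt (e₁ := e₂) (e₂ := e₁) (e₃ := e₃) hd h12.symm h23
    have q1 : -(d * (e₂ + e₁ + e₃)) = A := by rw [hA]; ring
    have q2 : d ^ 2 * (e₂ * e₁ + e₂ * e₃ + e₁ * e₃) = B := by rw [hB]; ring
    have q3 : -(d ^ 3 * (e₂ * e₁ * e₃)) = C := by rw [hC]; ring
    rwa [q1, q2, q3] at this
  have r3 : Root A B C (d * e₃) := by
    have := roots_Wt (e₁ := e₃) (e₂ := e₁) (e₃ := e₂) hd h13.symm h23.symm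
    have q1 : -(d * (e₃ + e₁ + e₂)) = A := by rw [hA]; ring
    have q2 : d ^ 2 * (e₃ * e₁ + e₃ * e₂ + e₁ * e₂) = B := by rw [hB]; ring
    have q3 : -(d ^ 3 * (e₃ * e₁ * e₂)) = C := by rw [hC]; ring
    rwa [q1, q2, q3] at this
  obtain ⟨Q, hQ⟩ : ∃ Q, Q = (2 : ℕ) • P := ⟨_, rfl⟩
  have h2Q : (2 : ℕ) • Q = 0 := by
    rw [hQ, ← mul_nsmul']; exact h4P
  rw [← hQ] at h2P
  have d1 := double_sq r1 P Q hQ.symm
  have d2 := double_sq r2 P Q hQ.symm
  have d3 := double_sq r3 P Q hQ.symm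
  rcases Q with _ | ⟨x, y, h⟩
  · exact absurd rfl h2P
  have hy : y = 0 := by
    by_contra hy
    obtain ⟨l, hl⟩ : ∃ l : ℚ, l * (2 * y) = 3 * x ^ 2 + 2 * A * x + B :=
      ⟨(3 * x ^ 2 + 2 * A * x + B) / (2 * y), by field_simp⟩
    obtain ⟨h', e⟩ := double_rel h hy hl
    rw [h2Q] at e
    exact Point.some_ne_zero h' e.symm
  have hx : (x - d * e₁) * (x - d * e₂) * (x - d * e₃) = 0 := by
    have := eqn_iff.1 h.1
    rw [hy, hA, hB, hC] at this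
    linear_combination -this
  have n12 : d * e₁ ≠ d * e₂ := fun h => h12 (mul_left_cancel₀ hd h)
  have n13 : d * e₁ ≠ d * e₃ := fun h => h13 (mul_left_cancel₀ hd h)
  have n23 : d * e₂ ≠ d * e₃ := fun h => h23 (mul_left_cancel₀ hd h)
  rw [dval_some] at d1 d2 d3
  rcases mul_eq_zero.1 hx with h1 | h1
  · rcases mul_eq_zero.1 h1 with h1 | h1
    · have hx1 : x = d * e₁ := sub_eq_zero.1 h1
      rw [hx1, if_neg n12] at d2
      rw [hx1, if_neg n13] at d3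
      obtain ⟨a, ha⟩ := d2
      obtain ⟨b, hb⟩ := d3
      exact core4 hd h12 h13 h23 (by rw [ha]; ring) (by rw [hb]; ring)
    · have hx1 : x = d * e₂ := sub_eq_zero.1 h1
      rw [hx1, if_neg n12.symm] at d1
      rw [hx1, if_neg n23] at d3
      obtain ⟨a, ha⟩ := d1
      obtain ⟨b, hb⟩ := d3
      exact four12 (core4 hd h12.symm h23 h13 (by rw [ha]; ring) (by rw [hb]; ring))
  · have hx1 : x = d * e₃ := sub_eq_zero.1 h1
    rw [hx1, if_neg n13.symm] at d1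
    rw [hx1, if_neg n23.symm] at d2
    obtain ⟨a, ha⟩ := d1
    obtain ⟨b, hb⟩ := d2
    exact four23 (four12 (core4 hd h13.symm h23.symm h12 (by rw [ha]; ring) (by rw [hb]; ring)))

theorem order4 {e₁ e₂ e₃ d : ℚ} (hd : d ≠ 0) (h12 : e₁ ≠ e₂) (h13 : e₁ ≠ e₃) (h23 : e₂ ≠ e₃)
    (P : (Wt e₁ e₂ e₃ d).Point) (hP : addOrderOf P = 4) : Four e₁ e₂ e₃ := by
  have h4P : (4 : ℕ) • P = 0 := by rw [← hP]; exact addOrderOf_nsmul_eq_zero P
  have h2P : (2 : ℕ) • P ≠ 0 := by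
    intro h
    have := addOrderOf_dvd_of_nsmul_eq_zero h
    rw [hP] at this
    omega
  exact order4_gen hd h12 h13 h23 rfl rfl rfl P h4P h2P

end H28.TW
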