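import Pool.Agent.helper78.Tw.A

set_option autoImplicit false

/-!
# Rational functions as functions on `ℚ`, and their heights

`RF φ`: the function `φ : ℚ → ℚ` agrees outside a finite set with a quotient of polynomials.
`RF.height`: the height of `φ x` is `d * logHeight₁ x + O(1)` for such a function.
-/

namespace H28.TW

open Height Polynomial

/-- `φ` agrees with a rational function outside a finite set. -/
def RF (φ : ℚ → ℚ) : Prop :=
  ∃ (N M : ℚ[X]) (F : Set ℚ), F.Finite ∧ M ≠ 0 ∧ ∀ x ∉ F, φ x = N.eval x / M.eval x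

theorem roots_finite {M : ℚ[X]} (hM : M ≠ 0) : {x : ℚ | M.eval x = 0}.Finite := by
  have := (M.roots.toFinset).finite_toSet
  refine this.subset fun x hx => ?_
  simp only [Finset.mem_coe, Multiset.mem_toFinset, mem_roots hM, IsRoot.def]
  exact hx

namespace RF

theorem const (c : ℚ) : RF (fun _ => c) :=
  ⟨C c, 1, ∅, Set.finite_empty, one_ne_zero, fun x _ => by simp⟩

theorem id : RF (fun x => x) :=
  ⟨X, 1, ∅, Set.finite_empty, one_ne_zero, fun x _ => by simp⟩

theorem poly (P : ℚ[X]) : RF (fun x => P.eval x) :=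
  ⟨P, 1, ∅, Set.finite_empty, one_ne_zero, fun x _ => by simp⟩

theorem congr {φ ψ : ℚ → ℚ} (hφ : RF φ) {G : Set ℚ} (hG : G.Finite)
    (h : ∀ x ∉ G, ψ x = φ x) : RF ψ := by
  obtain ⟨N, M, F, hF, hM, e⟩ := hφ
  refine ⟨N, M, F ∪ G, hF.union hG, hM, fun x hx => ?_⟩
  rw [Set.mem_union, not_or] at hx
  rw [h x hx.2, e x hx.1]

theorem add {φ ψ : ℚ → ℚ} (hφ : RF φ) (hψ : RF ψ) : RF (fun x => φ x + ψ x) := by
  obtain ⟨N, M, F, hF, hM, e⟩ := hφ
  obtain ⟨N', M', F', hF', hM', e'⟩ := hψ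
  refine ⟨N * M' + N' * M, M * M', F ∪ F' ∪ ({x | M.eval x = 0} ∪ {x | M'.eval x = 0}),
    (hF.union hF').union ((roots_finite hM).union (roots_finite hM')),
    mul_ne_zero hM hM', fun x hx => ?_⟩
  simp only [Set.mem_union, Set.mem_ofPred_eq, not_or] at hx
  obtain ⟨⟨h1, h2⟩, h3, h4⟩ := hx
  show φ x + ψ x = _
  rw [e x h1, e' x h2]
  simp only [eval_add, eval_mul]
  rw [div_add_div _ _ h3 h4]
  ring

theorem mul {φ ψ : ℚ → ℚ} (hφ : RF φ) (hψ : RF ψ) : RF (fun x => φ x * ψ x) := by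
  obtain ⟨N, M, F, hF, hM, e⟩ := hφ
  obtain ⟨N', M', F', hF', hM', e'⟩ := hψ
  refine ⟨N * N', M * M', F ∪ F', hF.union hF', mul_ne_zero hM hM', fun x hx => ?_⟩
  simp only [Set.mem_union, not_or] at hx
  show φ x * ψ x = _
  rw [e x hx.1, e' x hx.2]
  simp only [eval_mul]
  rw [div_mul_div_comm]

theorem neg {φ : ℚ → ℚ} (hφ : RF φ) : RF (fun x => -φ x) := by
  have := (const (-1)).mul hφ
  simpa using this

theorem sub {φ ψ : ℚ → ℚ} (hφ : RF φ) (hψ : RF ψ) : RF (fun x => φ x - ψ x) := by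
  have := hφ.add hψ.neg
  simpa [sub_eq_add_neg] using this

theorem pow {φ : ℚ → ℚ} (hφ : RF φ) (n : ℕ) : RF (fun x => φ x ^ n) := by
  induction n with
  | zero => simpa using const 1
  | succ n ih => simpa [pow_succ] using ih.mul hφ

theorem inv {φ : ℚ → ℚ} (hφ : RF φ) : RF (fun x => (φ x)⁻¹) := by
  obtain ⟨N, M, F, hF, hM, e⟩ := hφ
  by_cases hN : N = 0
  · refine ⟨0, 1, F, hF, one_ne_zero, fun x hx => ?_⟩
    show (φ x)⁻¹ = _
    rw [e x hx, hN]; simp
  · refine ⟨M, N, F, hF, hN, fun x hx => ?_⟩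
    show (φ x)⁻¹ = _
    rw [e x hx, inv_div]

theorem div {φ ψ : ℚ → ℚ} (hφ : RF φ) (hψ : RF ψ) : RF (fun x => φ x / ψ x) := by
  have := hφ.mul hψ.inv
  simpa [div_eq_mul_inv] using this

/-- A polynomial evaluated at a rational function. -/
theorem eval_poly {ρ : ℚ → ℚ} (hρ : RF ρ) (P : ℚ[X]) : RF (fun x => P.eval (ρ x)) := by
  induction P using Polynomial.induction_on' with
  | add p q hp hq => simpa using hp.add hq
  | monomial n a => simpa using (const a).mul (hρ.pow n)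

/-- Composition. -/
theorem comp {φ ρ : ℚ → ℚ} (hφ : RF φ) (hρ : RF ρ) (hfin : ∀ c, {x | ρ x = c}.Finite) :
    RF (fun x => φ (ρ x)) := by
  obtain ⟨N, M, F, hF, hM, e⟩ := hφ
  have h1 : RF (fun x => N.eval (ρ x) / M.eval (ρ x)) :=
    (hρ.eval_poly N).div (hρ.eval_poly M)
  refine h1.congr (G := ⋃ c ∈ F, {x | ρ x = c}) (hF.biUnion fun c _ => hfin c) fun x hx => ?_
  apply e
  intro h
  apply hx
  simp only [Set.mem_iUnion, Set.mem_ofPred_eq, exists_prop]
  exact ⟨ρ x, h, rfl⟩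

end RF

/-! ### Heights -/

theorem bez {P Q : ℚ[X]} (h : IsCoprime P Q) (hd0 : 0 < max P.natDegree Q.natDegree) :
    ∃ (M : ℕ) (a b a' b' : ℚ[X]), a.natDegree ≤ M ∧ b.natDegree ≤ M ∧ a'.natDegree ≤ M ∧
      b'.natDegree ≤ M ∧ a * P + b * Q = 1 ∧
      a' * P + b' * Q = X ^ (M + max P.natDegree Q.natDegree) := by
  wlog hle : Q.natDegree ≤ P.natDegree generalizing P Q with H
  · obtain ⟨M, a, b, a', b', h1, h2, h3, h4, h5, h6⟩ := H h.symm (by rwa [max_comm])
      (le_of_lt (not_le.1 hle))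
    refine ⟨M, b, a, b', a', h2, h1, h4, h3, ?_, ?_⟩
    · rw [add_comm]; exact h5
    · rw [add_comm, max_comm]; exact h6
  rw [max_eq_left hle] at hd0 ⊢
  obtain ⟨a, b, hab⟩ := h
  set d := P.natDegree with hd
  set M := max d (max a.natDegree b.natDegree) with hM
  have hdM : d ≤ M := le_max_left _ _
  have hP0 : P ≠ 0 := by
    intro h0
    rw [h0, natDegree_zero] at hd
    omega
  have hb' : (X ^ (M + d) * b % P).natDegree < d := natDegree_mod_lt _ hd0.ne'
  have hdiv : P * (X ^ (M + d) * b / P) + X ^ (M + d) * b % P = X ^ (M + d) * b :=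
    EuclideanDomain.div_add_mod _ _
  have key : (X ^ (M + d) * a + X ^ (M + d) * b / P * Q) * P + (X ^ (M + d) * b % P) * Q =
      X ^ (M + d) := by
    linear_combination X ^ (M + d) * hab + Q * hdiv
  refine ⟨M, a, b, X ^ (M + d) * a + X ^ (M + d) * b / P * Q, X ^ (M + d) * b % P,
    (le_max_left _ _).trans (le_max_right _ _), (le_max_right _ _).trans (le_max_right _ _), ?_,
    by omega, hab, key⟩
  by_cases ha : X ^ (M + d) * a + X ^ (M + d) * b / P * Q = 0
  · rw [ha, natDegree_zero]; exact Nat.zero_le _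
  have h1 : ((X ^ (M + d) * a + X ^ (M + d) * b / P * Q) * P).natDegree =
      (X ^ (M + d) * a + X ^ (M + d) * b / P * Q).natDegree + d := natDegree_mul ha hP0
  have h2 : (X ^ (M + d) * a + X ^ (M + d) * b / P * Q) * P =
      X ^ (M + d) - (X ^ (M + d) * b % P) * Q := by
    rw [eq_sub_iff_add_eq]; exact key
  have h3 : (X ^ (M + d) - (X ^ (M + d) * b % P) * Q).natDegree ≤ M + d := by
    refine (natDegree_sub_le _ _).trans (max_le ?_ ?_)
    · rw [natDegree_X_pow]
    · refine natDegree_mul_le.trans ?_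
      omega
  rw [← h2, h1] at h3
  omega

theorem height_coprime {P Q : ℚ[X]} (h : IsCoprime P Q) :
    ∃ C : ℝ, ∀ x : ℚ, Q.eval x ≠ 0 →
      |logHeight₁ (P.eval x / Q.eval x) - (max P.natDegree Q.natDegree : ℕ) * logHeight₁ x| ≤
        C := by
  rcases Nat.eq_zero_or_pos (max P.natDegree Q.natDegree) with h0 | hpos
  · have hP : P.natDegree = 0 := by have := le_max_left P.natDegree Q.natDegree; omega
    have hQ : Q.natDegree = 0 := by have := le_max_right P.natDegree Q.natDegree; omega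
    rw [natDegree_eq_zero] at hP hQ
    obtain ⟨p, rfl⟩ := hP
    obtain ⟨q, rfl⟩ := hQ
    refine ⟨|logHeight₁ (p / q)|, fun x _ => ?_⟩
    rw [h0]
    simp
  set d := max P.natDegree Q.natDegree with hd
  obtain ⟨C₁, h₁⟩ := H78.Tw.height_rat_le P Q d (le_max_left _ _) (le_max_right _ _)
  obtain ⟨M, a, b, a', b', ha, hb, ha', hb', e1, e2⟩ := bez h hpos
  let q : Fin 2 × Fin 2 → MvPolynomial (Fin 2) ℚ := fun ij =>
    ![![a'.homogenize M, b'.homogenize M], ![a.homogenize M, b.homogenize M]] ij.1 ij.2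
  have hq : ∀ ij, (q ij).IsHomogeneous M := by
    rintro ⟨i, j⟩
    fin_cases i <;> fin_cases j <;> exact Polynomial.isHomogeneous_homogenize _
  obtain ⟨C₂, h₂⟩ := logHeight_eval_ge' (N := d) hq
  refine ⟨max C₁ (-C₂), fun x hx => ?_⟩
  have h3 := h₁ x hx
  let p : Fin 2 → MvPolynomial (Fin 2) ℚ :=
    ![MvPolynomial.C (P.eval x), MvPolynomial.C (Q.eval x)]
  have h4 := h₂ p (x := ![x, 1]) (by
    intro k
    rw [Fin.sum_univ_two]
    fin_cases k
    · change MvPolynomial.eval ![x, 1] (a'.homogenize M) * MvPolynomial.eval ![x, 1] (p 0) +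
        MvPolynomial.eval ![x, 1] (b'.homogenize M) * MvPolynomial.eval ![x, 1] (p 1) = x ^ (M + d)
      rw [H78.Tw.eval_homogenize _ _ ha', H78.Tw.eval_homogenize _ _ hb']
      change _ * (MvPolynomial.eval ![x, 1] (MvPolynomial.C _)) +
        _ * (MvPolynomial.eval ![x, 1] (MvPolynomial.C _)) = _
      rw [MvPolynomial.eval_C, MvPolynomial.eval_C]
      have := congrArg (Polynomial.eval x) e2
      simpa using this
    · change MvPolynomial.eval ![x, 1] (a.homogenize M) * MvPolynomial.eval ![x, 1] (p 0) +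
        MvPolynomial.eval ![x, 1] (b.homogenize M) * MvPolynomial.eval ![x, 1] (p 1) =
          (1 : ℚ) ^ (M + d)
      rw [H78.Tw.eval_homogenize _ _ ha, H78.Tw.eval_homogenize _ _ hb]
      change _ * (MvPolynomial.eval ![x, 1] (MvPolynomial.C _)) +
        _ * (MvPolynomial.eval ![x, 1] (MvPolynomial.C _)) = _
      rw [MvPolynomial.eval_C, MvPolynomial.eval_C, one_pow]
      have := congrArg (Polynomial.eval x) e1
      simpa using this)
  have e3 : (fun j => MvPolynomial.eval ![x, 1] (p j)) = ![P.eval x, Q.eval x] := by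
    ext j
    fin_cases j <;> exact MvPolynomial.eval_C _
  rw [e3, ← logHeight₁_eq_logHeight x, ← logHeight₁_div_eq_logHeight] at h4
  rw [abs_le]
  have h5 := le_max_left C₁ (-C₂)
  have h6 := le_max_right C₁ (-C₂)
  constructor <;> linarith

/-- The height of a rational function. -/
theorem RF.height {φ : ℚ → ℚ} (hφ : RF φ) :
    ∃ (d : ℕ) (C : ℝ) (F : Set ℚ), F.Finite ∧
      ∀ x ∉ F, |logHeight₁ (φ x) - d * logHeight₁ x| ≤ C := by
  obtain ⟨N, M, F, hF, hM, e⟩ := hφ
  obtain ⟨g, N', M', hco, hN', hM'⟩ : ∃ g N' M' : ℚ[X], IsCoprime N' M' ∧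
      N = g * N' ∧ M = g * M' := by
    have hg : EuclideanDomain.gcd N M ≠ 0 := by
      intro h
      exact hM (EuclideanDomain.gcd_eq_zero_iff.1 h).2
    obtain ⟨N', hN'⟩ := EuclideanDomain.gcd_dvd_left N M
    obtain ⟨M', hM'⟩ := EuclideanDomain.gcd_dvd_right N M
    refine ⟨EuclideanDomain.gcd N M, N', M',
      ⟨EuclideanDomain.gcdA N M, EuclideanDomain.gcdB N M, ?_⟩, hN', hM'⟩
    have h1 := EuclideanDomain.gcd_eq_gcd_ab N M
    apply mul_left_cancel₀ hg
    generalize EuclideanDomain.gcd N M = g at *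
    generalize EuclideanDomain.gcdA N M = u at *
    generalize EuclideanDomain.gcdB N M = v at *
    rw [hN', hM'] at h1
    linear_combination -h1
  obtain ⟨C, hC⟩ := height_coprime hco
  refine ⟨max N'.natDegree M'.natDegree, C, F ∪ {x | M.eval x = 0}, hF.union (roots_finite hM), fun x hx => ?_⟩
  simp only [Set.mem_union, Set.mem_ofPred_eq, not_or] at hx
  have h1 : g.eval x * M'.eval x ≠ 0 := by
    rw [← eval_mul, ← hM']; exact hx.2
  have h2 : φ x = N'.eval x / M'.eval x := by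
    rw [e x hx.1, hN', hM', eval_mul, eval_mul, mul_div_mul_left _ _ (left_ne_zero_of_mul h1)]
  rw [h2]
  exact hC x (right_ne_zero_of_mul h1)

end H28.TW
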