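import Pool.Agent.helper28.TW.Maps6
import Pool.Agent.helper59.Tw.Arc
import Pool.Agent.helper17.Tw.Engine

set_option autoImplicit false

/-!
# Twists of rank at least four of the curves with a point of order three
-/

namespace H28.TW

open WeierstrassCurve WeierstrassCurve.Affine Height Polynomial H79.Tw H48.CN

/-! ### Fibres -/

theorem lin_fin {p q : ℚ} (h : ¬(p = 0 ∧ q = 0)) : {r : ℚ | p * r + q = 0}.Finite := by
  have h1 : (C p * X + C q : ℚ[X]) ≠ 0 := by
    intro h0
    apply h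
    have e1 := congrArg (fun f => f.coeff 1) h0
    have e2 := congrArg (fun f => f.coeff 0) h0
    simp at e1 e2
    exact ⟨e1, e2⟩
  refine (roots_finite h1).subset fun r hr => ?_
  simpa using hr

theorem fib_mob {a b c d : ℚ} (h : a * d - b * c ≠ 0) (v : ℚ) :
    {u : ℚ | (a * u + b) / (c * u + d) = v}.Finite := by
  have h1 : ¬(a - v * c = 0 ∧ b - v * d = 0) := by
    rintro ⟨e1, e2⟩
    apply h
    linear_combination d * e1 - c * e2
  have h2 : ¬(c = 0 ∧ d = 0) := by
    rintro ⟨e1, e2⟩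
    apply h
    rw [e1, e2]; ring
  refine ((lin_fin h1).union (lin_fin h2)).subset fun u hu => ?_
  simp only [Set.mem_union, Set.mem_ofPred_eq] at hu ⊢
  rcases eq_or_ne (c * u + d) 0 with h0 | h0
  · exact Or.inr h0
  · left
    rw [div_eq_iff h0] at hu
    linear_combination hu

theorem fib_comp {φ ρ : ℚ → ℚ} (h1 : ∀ c, {x | φ x = c}.Finite) (h2 : ∀ c, {x | ρ x = c}.Finite)
    (c : ℚ) : {x | φ (ρ x) = c}.Finite := by
  refine ((h1 c).biUnion (t := fun d => {x | ρ x = d}) fun d _ => h2 d).subset fun x hx => ?_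
  simp only [Set.mem_iUnion, Set.mem_ofPred_eq, exists_prop]
  exact ⟨ρ x, hx, rfl⟩

variable {t : ℚ}

theorem c_ne (h : 1 < t) : 2 * t + 1 ≠ 0 := by intro h'; linarith

theorem la_sub (h : 1 < t) : la t - 1 = (t - 1) * (t + 1) ^ 3 / (2 * t + 1) := by
  unfold la
  rw [div_sub_one (c_ne h)]
  congr 1; ring

theorem la_gt (h : 1 < t) : 1 < la t := by
  have h1 := la_sub h
  have h2 : 0 < t - 1 := by linarith
  have h3 : 0 < (t - 1) * (t + 1) ^ 3 / (2 * t + 1) := by positivity
  linarith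

theorem fib_iso (h : 1 < t) (c : ℚ) : {x | iso t x = c}.Finite := by
  have hc := c_ne h
  have hp : (C ((2 * t + 1) ^ 4) * X ^ 3 + C (-(2 * (2 * t + 1) ^ 2 * (3 * t * (t + 2))) -
      c * (3 * (2 * t + 1)) ^ 2) * X ^ 2 + C ((3 * t * (t + 2)) ^ 2 + 2 * c * (3 * (2 * t + 1)) *
      (t + 2) ^ 2) * X + C (-(c * (t + 2) ^ 4)) : ℚ[X]) ≠ 0 := by
    intro h0
    have e1 := congrArg (fun f => f.coeff 3) h0
    generalize (-(2 * (2 * t + 1) ^ 2 * (3 * t * (t + 2))) - c * (3 * (2 * t + 1)) ^ 2) = q1 at e1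
    generalize ((3 * t * (t + 2)) ^ 2 + 2 * c * (3 * (2 * t + 1)) * (t + 2) ^ 2) = q2 at e1
    generalize (-(c * (t + 2) ^ 4)) = q3 at e1
    have e2 : (2 * t + 1) ^ 4 ≠ 0 := pow_ne_zero 4 hc
    generalize (2 * t + 1) ^ 4 = q0 at e1 e2
    simp at e1
    exact e2 e1
  have h2 : ¬(3 * (2 * t + 1) = 0 ∧ -(t + 2) ^ 2 = 0) := by
    rintro ⟨e1, -⟩
    exact hc (by linarith)
  refine ((roots_finite hp).union (lin_fin h2)).subset fun x hx => ?_
  simp only [Set.mem_union, Set.mem_ofPred_eq, eval_add, eval_mul, eval_C, eval_pow, eval_X]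
  rcases eq_or_ne (3 * (2 * t + 1) * x - (t + 2) ^ 2) 0 with h0 | h0
  · right; linear_combination h0
  · left
    have h1 : iso t x = c := hx
    unfold iso at h1
    rw [div_eq_iff (pow_ne_zero 2 h0)] at h1
    linear_combination h1

theorem fib_m3 (h : 1 < t) (c : ℚ) : {x | m3 t x = c}.Finite := by
  have h1 := la_gt h
  have hd : la t ^ 2 * (-la t) - (-(la t ^ 2)) * cN t ≠ 0 := by
    have e : la t ^ 2 * (-la t) - (-(la t ^ 2)) * cN t = la t ^ 2 * (la t - 1) ^ 2 := by
      unfold cN; ring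
    rw [e]
    have h2 : 0 < la t - 1 := by linarith
    have h3 : 0 < la t := by linarith
    positivity
  refine (fib_mob hd c).subset fun u hu => ?_
  have h1 : m3 t u = c := hu
  simp only [Set.mem_ofPred_eq]
  rw [← h1]; unfold m3
  congr 1 <;> ring

theorem fib_m5 (h : 1 < t) (c : ℚ) : {x | m5 t x = c}.Finite := by
  have hd : ((t + 1) ^ 2 * (t + 2) ^ 2) * (t ^ 2 * (t - 1) ^ 2) -
      0 * (4 * (2 * t + 1) * (t ^ 2 + t + 1)) ≠ 0 := by
    have h2 : 0 < t - 1 := by linarith
    have h3 : 0 < t := by linarith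
    have : ((t + 1) ^ 2 * (t + 2) ^ 2) * (t ^ 2 * (t - 1) ^ 2) -
      0 * (4 * (2 * t + 1) * (t ^ 2 + t + 1)) = ((t + 1) ^ 2 * (t + 2) ^ 2) *
        (t ^ 2 * (t - 1) ^ 2) := by ring
    rw [this]
    positivity
  refine (fib_mob hd c).subset fun u hu => ?_
  have h1 : m5 t u = c := hu
  simp only [Set.mem_ofPred_eq]
  rw [← h1]; unfold m5 l5
  congr 1; ring

theorem fib_m9 (h : 1 < t) (c : ℚ) : {x | m9 t x = c}.Finite := by
  have hd : (t ^ 4 * (t + 2) ^ 4) * (-cB t) - (-(t ^ 4 * (t + 2) ^ 4)) * cA t ≠ 0 := by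
    have e : (t ^ 4 * (t + 2) ^ 4) * (-cB t) - (-(t ^ 4 * (t + 2) ^ 4)) * cA t =
      t ^ 4 * (t + 2) ^ 4 * (t ^ 2 - 1) ^ 4 := by
      unfold cA; ring
    rw [e]
    have h2 : 0 < t ^ 2 - 1 := by nlinarith
    have h3 : 0 < t := by linarith
    positivity
  refine (fib_mob hd c).subset fun u hu => ?_
  have h1 : m9 t u = c := hu
  simp only [Set.mem_ofPred_eq]
  rw [← h1]; unfold m9 l9
  congr 1 <;> ring

/-! ### Rationality -/

theorem rf_lin (a b : ℚ) : RF (fun x => a * x + b) :=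
  ((RF.const a).mul RF.id).add (RF.const b)

theorem rf_iso (t : ℚ) : RF (iso t) :=
  (RF.id.mul ((((RF.const _).mul RF.id).sub (RF.const _)).pow 2)).div
    ((((RF.const _).mul RF.id).sub (RF.const _)).pow 2)

theorem rf_psi (t : ℚ) : RF (psi t) :=
  (((((RF.const _).mul RF.id).sub (RF.const _)).mul (((RF.const _).mul RF.id).sub
    (RF.const _))).mul (((RF.const _).mul RF.id).sub (RF.const _))).div
    ((((RF.const _).mul RF.id).sub (RF.const _)).pow 3)

theorem rf_m3 (t : ℚ) : RF (m3 t) :=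
  ((RF.const _).mul (RF.id.sub (RF.const 1))).div (((RF.const _).mul RF.id).sub (RF.const _))

theorem rf_o3 (t : ℚ) : RF (o3 t) :=
  (RF.const _).div ((((RF.const _).mul RF.id).sub (RF.const _)).pow 2)

theorem rf_l5 (t : ℚ) : RF (l5 t) := ((RF.const _).mul RF.id).add (RF.const _)

theorem rf_l9 (t : ℚ) : RF (l9 t) := ((RF.const _).mul RF.id).sub (RF.const _)

theorem rf_m5 (t : ℚ) : RF (m5 t) := ((RF.const _).mul RF.id).div (rf_l5 t)

theorem rf_o5 (t : ℚ) : RF (o5 t) := (RF.const _).div ((rf_l5 t).pow 2)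

theorem rf_m9 (t : ℚ) : RF (m9 t) :=
  ((RF.const _).mul (RF.id.sub (RF.const 1))).div (rf_l9 t)

theorem rf_o9 (t : ℚ) : RF (o9 t) := (RF.const _).div ((rf_l9 t).pow 2)

/-! ### The star -/

theorem cN_mul (h : 1 < t) : cN t * (2 * t + 1) ^ 2 = (t ^ 2 + t + 1) * pn t := by
  have e := la_mul (c_ne h)
  unfold cN pn
  linear_combination (la t * (2 * t + 1) + t ^ 3 * (t + 2) - (2 * t + 1)) * e

theorem cA_eq : cA t = (t ^ 2 + t + 1) * p6 t := by
  unfold cA cB p6; ring

theorem cB_eq (h : 1 < t) : cB t = la t * (2 * t + 1) ^ 4 := by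
  have e := la_mul (c_ne h)
  unfold cB
  linear_combination (-((2 * t + 1) ^ 3)) * e

theorem star6 (h : 1 < t) :
    ∃ F : Set ℚ, F.Finite ∧ ∀ (N w u s1 s2 s3 : ℚ), N ≠ 0 → u ∉ F →
      N * w ^ 2 = u * (u ^ 2 + (-(1 + la t)) * u + la t) →
      s1 ^ 2 = -ptau t * cN t * u + ptau t * la t →
      s2 ^ 2 = 4 * (2 * t + 1) * (t ^ 2 + t + 1) * u + t ^ 2 * (t - 1) ^ 2 →
      s3 ^ 2 = -ptau t * cA t * u + ptau t * cB t →
      ∃ P : Fin 4 → (TW (-(1 + la t)) (la t) N).Point, LinearIndependent ℤ P := by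
  have hc := c_ne h
  have hla := la_gt h
  have ht := ptau_pos h
  have hla0 : 0 < la t := by linarith
  have hla1 : 0 < la t - 1 := by linarith
  have hE : la t * ((-(1 + la t)) ^ 2 - 4 * la t) ≠ 0 := by
    have e : la t * ((-(1 + la t)) ^ 2 - 4 * la t) = la t * (la t - 1) ^ 2 := by ring
    rw [e]; positivity
  have hcN : 0 < cN t := by unfold cN; nlinarith
  have hcB : 0 < cB t := by unfold cB; positivity
  have hcA : 0 < cA t := by unfold cA; positivity
  have ht1 : 0 < t - 1 := by linarith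
  have h59 : cA t * la t - cN t * cB t ≠ 0 := by
    have e : (cA t * la t - cN t * cB t) =
        -(la t * ((t ^ 2 + t + 1) * (4 * t * (t + 2) * (t - 1) ^ 2 * (t + 1) ^ 4))) := by
      rw [cB_eq h]
      have e1 := cN_mul h
      have e2 : cN t * (la t * (2 * t + 1) ^ 4) = la t * (2 * t + 1) ^ 2 *
        (cN t * (2 * t + 1) ^ 2) := by ring
      rw [e2, e1, cA_eq]
      unfold pn p6; ring
    rw [e]
    have : 0 < la t * ((t ^ 2 + t + 1) * (4 * t * (t + 2) * (t - 1) ^ 2 * (t + 1) ^ 4)) := by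
      positivity
    exact (neg_lt_zero.2 this).ne
  obtain ⟨F, hF, hstar⟩ := star' hE (n := 4)
    (ξ := ![fun u => u, fun u => m3 t u, fun u => iso t (m5 t u), fun u => iso t (m9 t u)])
    (ψ := ![fun _ => 1, fun u => o3 t u, fun u => psi t (m5 t u) * o5 t u,
      fun u => psi t (m9 t u) * o9 t u])
    (a := ![0, -ptau t * cN t, 4 * (2 * t + 1) * (t ^ 2 + t + 1), -ptau t * cA t])
    (b := ![1, ptau t * la t, t ^ 2 * (t - 1) ^ 2, ptau t * cB t])
    (by
      intro i
      fin_cases i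
      · exact RF.id
      · exact rf_m3 t
      · exact (rf_iso t).comp (rf_m5 t) (fib_m5 h)
      · exact (rf_iso t).comp (rf_m9 t) (fib_m9 h))
    (by
      intro i
      fin_cases i
      · exact RF.const 1
      · exact rf_o3 t
      · exact ((rf_psi t).comp (rf_m5 t) (fib_m5 h)).mul (rf_o5 t)
      · exact ((rf_psi t).comp (rf_m9 t) (fib_m9 h)).mul (rf_o9 t))
    (by
      have k01 : -(ptau t * cN t) ≠ 0 := (neg_lt_zero.2 (by positivity)).ne
      have k02 : 4 * (2 * t + 1) * (t ^ 2 + t + 1) ≠ 0 := by positivity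
      have k03 : -(ptau t * cA t) ≠ 0 := (neg_lt_zero.2 (by positivity)).ne
      have k12 : -(ptau t * (cN t * (t ^ 2 * (t - 1) ^ 2) +
        4 * (2 * t + 1) * (t ^ 2 + t + 1) * la t)) ≠ 0 := (neg_lt_zero.2 (by positivity)).ne
      have k13 : ptau t ^ 2 * (cA t * la t - cN t * cB t) ≠ 0 :=
        mul_ne_zero (pow_ne_zero 2 ht.ne') h59
      have k23 : ptau t * (4 * (2 * t + 1) * (t ^ 2 + t + 1) * cB t +
        cA t * (t ^ 2 * (t - 1) ^ 2)) ≠ 0 := by positivity
      intro i j hij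
      fin_cases i <;> fin_cases j <;>
        simp only [Fin.zero_eta, Fin.mk_one, Fin.reduceFinMk, Matrix.cons_val_zero,
          Matrix.cons_val_one, Matrix.cons_val, ne_eq, not_true_eq_false] at hij ⊢
      all_goals intro h0
      · apply k01; linear_combination -h0
      · apply k02; linear_combination -h0
      · apply k03; linear_combination -h0
      · apply k01; linear_combination h0
      · apply k12; linear_combination h0
      · apply k13; linear_combination h0
      · apply k02; linear_combination h0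
      · apply k12; linear_combination -h0
      · apply k23; linear_combination h0
      · apply k03; linear_combination h0
      · apply k13; linear_combination -h0
      · apply k23; linear_combination -h0)
    (by
      intro i c
      fin_cases i
      · simp
      · exact fib_m3 h c
      · exact fib_comp (fib_iso h) (fib_m5 h) c
      · exact fib_comp (fib_iso h) (fib_m9 h) c)
    (by
      intro i u
      fin_cases i
      · simp
      · exact m3_id hc u
      · change iso t (m5 t u) * (iso t (m5 t u) ^ 2 + (-(1 + la t)) * iso t (m5 t u) + la t) =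
          u * (u ^ 2 + (-(1 + la t)) * u + la t) *
          (4 * (2 * t + 1) * (t ^ 2 + t + 1) * u + t ^ 2 * (t - 1) ^ 2) *
          (psi t (m5 t u) * o5 t u) ^ 2
        have e := m5_id hc u
        rw [iso_id hc]
        linear_combination psi t (m5 t u) ^ 2 * e
      · change iso t (m9 t u) * (iso t (m9 t u) ^ 2 + (-(1 + la t)) * iso t (m9 t u) + la t) =
          u * (u ^ 2 + (-(1 + la t)) * u + la t) *
          (-ptau t * cA t * u + ptau t * cB t) *
          (psi t (m9 t u) * o9 t u) ^ 2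
        have e := m9_id hc u
        rw [iso_id hc]
        linear_combination psi t (m9 t u) ^ 2 * e)
  refine ⟨F, hF, fun N w u s1 s2 s3 hN hu hw h1 h2 h3 => ?_⟩
  refine hstar N w u ![1, s1, s2, s3] hN hu hw ?_
  intro i
  fin_cases i
  · simp
  · exact h1
  · exact h2
  · exact h3

end H28.TW
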