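import Pool.Agent.helper28.TW.RF
import Pool.Agent.helper38.Tw.B
import Pool.Agent.helper78.Tw.C

set_option autoImplicit false

/-!
# A star of double covers gives independent points

Let `f = x (x^2 + A x + B)`. If `N t^2 = f(u)` and `f(ξ u) = f(u) L(u) ψ(u)^2` with `L` affine, then
`(ξ u, t s ψ u)` with `s^2 = L(u)` is a point of the twist by `N`. Points of this kind for affine
functions `L`, pairwise not proportional, are linearly independent for all but finitely many `u`.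
-/

namespace H28.TW

open WeierstrassCurve WeierstrassCurve.Affine Height Polynomial H79.Tw

theorem quad_fin {p q : ℚ} (h : ¬(p = 0 ∧ q = 0)) : {r : ℚ | p * r ^ 2 + q = 0}.Finite := by
  have h1 : (C p * X ^ 2 + C q : ℚ[X]) ≠ 0 := by
    intro h0
    apply h
    have e1 := congrArg (fun f => f.coeff 2) h0
    have e2 := congrArg (fun f => f.coeff 0) h0
    simp [coeff_C] at e1 e2
    exact ⟨e1, e2⟩
  refine (roots_finite h1).subset fun r hr => ?_
  simpa using hr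

theorem mob_fib {a b a' b' : ℚ} (hab : a * b' - a' * b ≠ 0) (c : ℚ) :
    {r : ℚ | (b' * r ^ 2 - b) / (a - a' * r ^ 2) = c}.Finite := by
  have h1 : ¬(b' + a' * c = 0 ∧ -(b + a * c) = 0) := by
    rintro ⟨e1, e2⟩
    apply hab
    linear_combination a * e1 + a' * e2
  have h2 : ¬(-a' = 0 ∧ a = 0) := by
    rintro ⟨e1, e2⟩
    apply hab
    linear_combination b' * e2 + b * e1
  refine ((quad_fin h1).union (quad_fin h2)).subset fun r hr => ?_
  simp only [Set.mem_union, Set.mem_ofPred_eq]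
  rcases eq_or_ne (a - a' * r ^ 2) 0 with h0 | h0
  · right
    linear_combination h0
  · left
    have : (b' * r ^ 2 - b) / (a - a' * r ^ 2) = c := hr
    rw [div_eq_iff h0] at this
    linear_combination this

theorem pair_soft {A B : ℚ} (hE : B * (A ^ 2 - 4 * B) ≠ 0) {ξ ξ' ψ ψ' : ℚ → ℚ} (h1 : RF ξ)
    (h2 : RF ξ') (h3 : RF ψ) (h4 : RF ψ') {a b a' b' : ℚ} (hab : a * b' - a' * b ≠ 0)
    (hne : {u | ξ u = ξ' u}.Finite) :
    ∃ (C : ℝ) (F : Set ℚ), F.Finite ∧ ∀ (N t u s s' : ℚ) (hN : N ≠ 0), u ∉ F →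
      N * t ^ 2 = u * (u ^ 2 + A * u + B) → s ^ 2 = a * u + b → s' ^ 2 = a' * u + b' →
      ∀ e₁ e₂, |hh N (mk hE hN (ξ u) (t * (s * ψ u)) e₁ + mk hE hN (ξ' u) (t * (s' * ψ' u)) e₂) -
        hh N (mk hE hN (ξ u) (t * (s * ψ u)) e₁ - mk hE hN (ξ' u) (t * (s' * ψ' u)) e₂)| ≤ C := by
  set U : ℚ → ℚ := fun r => (b' * r ^ 2 - b) / (a - a' * r ^ 2) with hU
  have hUR : RF U := (((RF.const b').mul (RF.id.pow 2)).sub (RF.const b)).div
    ((RF.const a).sub ((RF.const a').mul (RF.id.pow 2)))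
  have hUneg : ∀ r, U (-r) = U r := fun r => by simp only [hU, neg_sq]
  set f : ℚ → ℚ := fun x => x * (x ^ 2 + A * x + B) with hf
  have hfR : ∀ {φ : ℚ → ℚ}, RF φ → RF (fun x => f (φ x)) := fun h =>
    h.mul (((h.pow 2).add ((RF.const A).mul h)).add (RF.const B))
  set G : ℚ → ℚ := fun u => (f (ξ u) + f (ξ' u)) / (ξ u - ξ' u) ^ 2 - A - ξ u - ξ' u with hG
  have hGR : RF G := (((((hfR h1).add (hfR h2)).div ((h1.sub h2).pow 2)).sub (RF.const A)).sub
    h1).sub h2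
  set H : ℚ → ℚ := fun u => 2 * f u * (a' * u + b') * ψ u * ψ' u / (ξ u - ξ' u) ^ 2 with hH
  have hHR : RF H := (((((RF.const 2).mul (hfR RF.id)).mul
    (((RF.const a').mul RF.id).add (RF.const b'))).mul h3).mul h4).div ((h1.sub h2).pow 2)
  set Φ : ℚ → ℚ := fun r => G (U r) - r * H (U r) with hΦ
  have hΦR : RF Φ := (hGR.comp hUR (mob_fib hab)).sub (RF.id.mul (hHR.comp hUR (mob_fib hab)))
  obtain ⟨d, C, F₀, hF₀, hC⟩ := hΦR.height
  have hL : {u : ℚ | a' * u + b' = 0}.Finite := by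
    have hp : (Polynomial.C a' * X + Polynomial.C b' : ℚ[X]) ≠ 0 := by
      intro h
      have e1 : a' = 0 := by
        have := congrArg (fun p => p.coeff 1) h
        simpa [coeff_X, coeff_C] using this
      have e2 : b' = 0 := by
        have := congrArg (fun p => p.coeff 0) h
        simpa [coeff_X, coeff_C] using this
      apply hab
      rw [e1, e2]; ring
    refine (roots_finite hp).subset fun u hu => ?_
    simpa using hu
  refine ⟨2 * C, ({u | ξ u = ξ' u} ∪ {u | a' * u + b' = 0}) ∪ U '' F₀, (hne.union hL).union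
    (hF₀.image U), fun N t u s s' hN hu hNt hs hs' e₁ e₂ => ?_⟩
  simp only [Set.mem_union, Set.mem_ofPred_eq, not_or] at hu
  obtain ⟨⟨hu1, hu2⟩, hu3⟩ := hu
  have hs'0 : s' ≠ 0 := by
    rintro rfl
    apply hu2
    rw [← hs']; ring
  set r := s / s' with hr
  have hrs : r * s' = s := div_mul_cancel₀ s hs'0
  have hrel : u * (a - a' * r ^ 2) = b' * r ^ 2 - b := by
    have : r ^ 2 * s' ^ 2 = s ^ 2 := by rw [← mul_pow, hrs]
    rw [hs, hs'] at this
    linear_combination (-1 : ℚ) * this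
  have hden : a - a' * r ^ 2 ≠ 0 := by
    intro h0
    rw [h0, mul_zero] at hrel
    apply hab
    linear_combination b' * h0 - a' * hrel
  have hUr : U r = u := by
    simp only [hU]
    rw [div_eq_iff hden]
    exact hrel.symm
  have hxd : ξ u - ξ' u ≠ 0 := sub_ne_zero.2 hu1
  have e1' : N * (t * (s * ψ u)) ^ 2 = f (ξ u) := e₁
  have e2' : N * (t * (s' * ψ' u)) ^ 2 = f (ξ' u) := e₂
  have hcross : N * (t * (s * ψ u)) * (t * (s' * ψ' u)) =
      f u * r * (a' * u + b') * ψ u * ψ' u := by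
    have : f u = N * t ^ 2 := hNt.symm
    rw [this, ← hs', ← hrs]; ring
  have hadd : hh N (mk hE hN (ξ u) (t * (s * ψ u)) e₁ + mk hE hN (ξ' u) (t * (s' * ψ' u)) e₂) =
      logHeight₁ (Φ r) := by
    rw [hh_add_of_ne _ _ hu1]
    congr 1
    simp only [hΦ, hUr, hG, hH]
    rw [← e1', ← e2']
    field_simp
    linear_combination (-2 : ℚ) * hcross
  have hsub : hh N (mk hE hN (ξ u) (t * (s * ψ u)) e₁ - mk hE hN (ξ' u) (t * (s' * ψ' u)) e₂) =
      logHeight₁ (Φ (-r)) := by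
    rw [hh_sub_of_ne _ _ hu1]
    congr 1
    simp only [hΦ, hUneg, hUr, hG, hH]
    rw [← e1', ← e2']
    field_simp
    linear_combination (2 : ℚ) * hcross
  have hr1 : r ∉ F₀ := fun h => hu3 ⟨r, h, hUr⟩
  have hr2 : -r ∉ F₀ := fun h => hu3 ⟨-r, h, by rw [hUneg, hUr]⟩
  have b1 := abs_le.1 (hC r hr1)
  have b2 := abs_le.1 (hC (-r) hr2)
  rw [logHeight₁_neg] at b2
  rw [hadd, hsub, abs_le]
  constructor <;> linarith [b1.1, b1.2, b2.1, b2.2]

theorem height_large {φ : ℚ → ℚ} (hφ : ∀ c, {x | φ x = c}.Finite) (H : ℝ) :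
    {x | logHeight₁ (φ x) ≤ H}.Finite := by
  refine ((NumberField.finite_setOfPred_logHeight₁_le ℚ H).biUnion (t := fun c => {x | φ x = c})
    fun c _ => hφ c).subset fun x hx => ?_
  simp only [Set.mem_iUnion, Set.mem_ofPred_eq, exists_prop]
  exact ⟨φ x, hx, rfl⟩

/-- The star theorem. -/
theorem star {A B : ℚ} (hE : B * (A ^ 2 - 4 * B) ≠ 0) {n : ℕ} {ξ ψ : Fin n → ℚ → ℚ}
    (hξ : ∀ i, RF (ξ i)) (hψ : ∀ i, RF (ψ i)) {a b : Fin n → ℚ}
    (hab : ∀ i j, i ≠ j → a i * b j - a j * b i ≠ 0)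
    (hne : ∀ i j, i ≠ j → {u | ξ i u = ξ j u}.Finite) (hfib : ∀ i c, {u | ξ i u = c}.Finite) :
    ∃ F : Set ℚ, F.Finite ∧ ∀ (N t u : ℚ) (s : Fin n → ℚ) (hN : N ≠ 0), u ∉ F →
      N * t ^ 2 = u * (u ^ 2 + A * u + B) → (∀ i, s i ^ 2 = a i * u + b i) →
      ∀ e : ∀ i, N * (t * (s i * ψ i u)) ^ 2 = ξ i u * ((ξ i u) ^ 2 + A * ξ i u + B),
      LinearIndependent ℤ (fun i => mk hE hN (ξ i u) (t * (s i * ψ i u)) (e i)) := by
  classical
  obtain ⟨K, hK⟩ := Pool.Agent.helper38.Tw.parallelogram hE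
  have hp : ∀ i j, ∃ (C : ℝ) (F : Set ℚ), F.Finite ∧ (i ≠ j → ∀ (N t u s s' : ℚ) (hN : N ≠ 0),
      u ∉ F → N * t ^ 2 = u * (u ^ 2 + A * u + B) → s ^ 2 = a i * u + b i →
      s' ^ 2 = a j * u + b j → ∀ e₁ e₂,
      |hh N (mk hE hN (ξ i u) (t * (s * ψ i u)) e₁ + mk hE hN (ξ j u) (t * (s' * ψ j u)) e₂) -
        hh N (mk hE hN (ξ i u) (t * (s * ψ i u)) e₁ - mk hE hN (ξ j u) (t * (s' * ψ j u)) e₂)| ≤
        C) := by
    intro i j
    by_cases hij : i = j
    · exact ⟨0, ∅, Set.finite_empty, fun h => absurd hij h⟩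
    · obtain ⟨C, F, hF, h⟩ := pair_soft hE (hξ i) (hξ j) (hψ i) (hψ j) (hab i j hij) (hne i j hij)
      exact ⟨C, F, hF, fun _ => h⟩
  choose C F hF hC using hp
  set M : ℝ := ∑ i, ∑ j, |C i j| with hM
  have hM0 : 0 ≤ M := Finset.sum_nonneg fun i _ => Finset.sum_nonneg fun j _ => abs_nonneg _
  have hCM : ∀ i j, C i j ≤ M := by
    intro i j
    calc C i j ≤ |C i j| := le_abs_self _
      _ ≤ ∑ j, |C i j| := Finset.single_le_sum (f := fun j => |C i j|)
          (fun j _ => abs_nonneg _) (Finset.mem_univ j)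
      _ ≤ M := Finset.single_le_sum (f := fun i => ∑ j, |C i j|)
          (fun i _ => Finset.sum_nonneg fun j _ => abs_nonneg _) (Finset.mem_univ i)
  set b' : ℝ := M / 4 with hb'
  refine ⟨(⋃ i, ⋃ j, F i j) ∪ ⋃ i, {u | logHeight₁ (ξ i u) ≤ n * (b' + K) + K},
    (Set.finite_iUnion fun i => Set.finite_iUnion fun j => hF i j).union
      (Set.finite_iUnion fun i => height_large (hfib i) _),
    fun N t u s hN hu hNt hs e => ?_⟩
  simp only [Set.mem_union, Set.mem_iUnion, Set.mem_ofPred_eq, not_or, not_exists, not_le] at hu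
  have hK0 : 0 ≤ K := (abs_nonneg _).trans (hK N hN 0 0)
  refine H78.Tw.linInd_of_dominant (hh N) K (hK N hN) _ (fun _ _ => b') (fun _ _ => rfl) ?_ ?_
  · intro i j hij
    have := hC i j hij N t u (s i) (s j) hN (hu.1 i j) hNt (hs i) (hs j) (e i) (e j)
    refine this.trans ?_
    rw [hb']
    linarith [hCM i j]
  · intro i
    rw [hh_mk, Finset.sum_const, nsmul_eq_mul]
    refine lt_of_le_of_lt ?_ (hu.2 i)
    have : ((Finset.univ.erase i).card : ℝ) ≤ n := by
      have h1 : (Finset.univ.erase i).card ≤ n := by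
        refine (Finset.card_le_univ _).trans ?_
        rw [Fintype.card_fin]
      exact_mod_cast h1
    have h2 : 0 ≤ b' + K := by positivity
    nlinarith

end H28.TW
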