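import Pool.Agent.helper28.TW.Star

set_option autoImplicit false

/-!
# The star theorem with the distinctness of the maps deduced from their square classes
-/

namespace H28.TW

open WeierstrassCurve WeierstrassCurve.Affine Height Polynomial H79.Tw

/-- A rational function vanishes at finitely many points or at all but finitely many. -/
theorem RF.dich {φ : ℚ → ℚ} (hφ : RF φ) : {x | φ x = 0}.Finite ∨ {x | φ x ≠ 0}.Finite := by
  obtain ⟨N, M, F, hF, hM, e⟩ := hφ
  by_cases hN : N = 0
  · right
    refine hF.subset fun x hx => ?_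
    by_contra h
    apply hx
    rw [e x h, hN]; simp
  · left
    refine (hF.union ((roots_finite hN).union (roots_finite hM))).subset fun x hx => ?_
    simp only [Set.mem_union, Set.mem_ofPred_eq]
    by_cases h : x ∈ F
    · exact Or.inl h
    · right
      have h1 : φ x = 0 := hx
      rw [e x h, div_eq_zero_iff] at h1
      exact h1

/-- Two polynomials which agree outside a finite set are equal. -/
theorem poly_eq_of {P Q : ℚ[X]} {F : Set ℚ} (hF : F.Finite) (h : ∀ x ∉ F, P.eval x = Q.eval x) :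
    P = Q := by
  apply Polynomial.eq_of_infinite_eval_eq
  refine (Set.Infinite.mono ?_ hF.infinite_compl)
  intro x hx
  exact h x hx

theorem mult_lin {a b r : ℚ} (h : a * r + b ≠ 0) : (C a * X + C b : ℚ[X]).rootMultiplicity r = 0 := by
  apply rootMultiplicity_eq_zero
  rw [IsRoot.def]
  simpa using h

theorem mult_lin' {a b r : ℚ} (ha : a ≠ 0) (h : a * r + b = 0) :
    (C a * X + C b : ℚ[X]).rootMultiplicity r = 1 := by
  have e : (C a * X + C b : ℚ[X]) = C a * (X - C r) := by
    have : b = -(a * r) := by linarith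
    rw [this]; simp only [C_neg, C_mul]; ring
  have h0 : (C a * (X - C r) : ℚ[X]) ≠ 0 := mul_ne_zero (C_ne_zero.2 ha) (X_sub_C_ne_zero r)
  rw [e, rootMultiplicity_mul h0, rootMultiplicity_C, rootMultiplicity_X_sub_C_self]

theorem not_sq_class {a b a' b' : ℚ} (hab : a * b' - a' * b ≠ 0) {φ : ℚ → ℚ} (hφ : RF φ)
    {F : Set ℚ} (hF : F.Finite) (h : ∀ u ∉ F, (a * u + b) * φ u ^ 2 = a' * u + b') : False := by
  obtain ⟨N, M, G, hG, hM, e⟩ := hφ
  have key : (C a * X + C b : ℚ[X]) * N ^ 2 = (C a' * X + C b') * M ^ 2 := by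
    apply poly_eq_of (hF.union (hG.union (roots_finite hM)))
    intro x hx
    simp only [Set.mem_union, Set.mem_ofPred_eq, not_or] at hx
    have h1 := h x hx.1
    rw [e x hx.2.1] at h1
    simp only [eval_mul, eval_add, eval_C, eval_X, eval_pow]
    rw [← h1]
    have := hx.2.2
    field_simp
  have hM2 : M ^ 2 ≠ 0 := pow_ne_zero 2 hM
  have hl : ∀ c d : ℚ, ¬(c = 0 ∧ d = 0) → (C c * X + C d : ℚ[X]) ≠ 0 := by
    intro c d hcd h0
    apply hcd
    have e1 := congrArg (fun f => f.coeff 1) h0
    have e2 := congrArg (fun f => f.coeff 0) h0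
    simp at e1 e2
    exact ⟨e1, e2⟩
  have hl' : (C a' * X + C b' : ℚ[X]) ≠ 0 := hl a' b' (by
    rintro ⟨h1, h2⟩
    apply hab; rw [h1, h2]; ring)
  have hl1 : (C a * X + C b : ℚ[X]) ≠ 0 := hl a b (by
    rintro ⟨h1, h2⟩
    apply hab; rw [h1, h2]; ring)
  have hN : N ≠ 0 := by
    rintro rfl
    rw [zero_pow two_ne_zero, mul_zero] at key
    exact mul_ne_zero hl' hM2 key.symm
  have hN2 : N ^ 2 ≠ 0 := pow_ne_zero 2 hN
  have hm : ∀ r, (C a * X + C b : ℚ[X]).rootMultiplicity r + 2 * N.rootMultiplicity r =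
      (C a' * X + C b' : ℚ[X]).rootMultiplicity r + 2 * M.rootMultiplicity r := by
    intro r
    have h1 := congrArg (rootMultiplicity r) key
    rw [rootMultiplicity_mul (mul_ne_zero hl1 hN2), rootMultiplicity_mul (mul_ne_zero hl' hM2),
      pow_two, pow_two, rootMultiplicity_mul (mul_ne_zero hN hN),
      rootMultiplicity_mul (mul_ne_zero hM hM)] at h1
    omega
  by_cases ha : a = 0
  · have ha' : a' ≠ 0 := by
      rintro rfl
      apply hab; rw [ha]; ring
    have hb : b ≠ 0 := by
      rintro rfl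
      apply hab; rw [ha]; ring
    have h1 := hm (-b' / a')
    rw [mult_lin' ha' (by field_simp; ring), mult_lin (by rw [ha]; simpa using hb)] at h1
    omega
  · have h1 := hm (-b / a)
    rw [mult_lin' ha (by field_simp; ring), mult_lin (by
      intro h0
      apply hab
      have : a' * (-b / a) + b' = (a * b' - a' * b) / a := by field_simp; ring
      rw [this, div_eq_zero_iff] at h0
      exact h0.resolve_right ha)] at h1
    omega

/-- The star theorem, second form. -/
theorem star' {A B : ℚ} (hE : B * (A ^ 2 - 4 * B) ≠ 0) {n : ℕ} {ξ ψ : Fin n → ℚ → ℚ}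
    (hξ : ∀ i, RF (ξ i)) (hψ : ∀ i, RF (ψ i)) {a b : Fin n → ℚ}
    (hab : ∀ i j, i ≠ j → a i * b j - a j * b i ≠ 0) (hfib : ∀ i c, {u | ξ i u = c}.Finite)
    (hid : ∀ i u, ξ i u * (ξ i u ^ 2 + A * ξ i u + B) =
      u * (u ^ 2 + A * u + B) * (a i * u + b i) * ψ i u ^ 2) :
    ∃ F : Set ℚ, F.Finite ∧ ∀ (N t u : ℚ) (s : Fin n → ℚ), N ≠ 0 → u ∉ F →
      N * t ^ 2 = u * (u ^ 2 + A * u + B) → (∀ i, s i ^ 2 = a i * u + b i) →
      ∃ P : Fin n → (TW A B N).Point, LinearIndependent ℤ P := by
  have hroot : {x : ℚ | x * (x ^ 2 + A * x + B) = 0}.Finite := by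
    have hp : (X ^ 3 + C A * X ^ 2 + C B * X : ℚ[X]) ≠ 0 := by
      intro h0
      have e1 := congrArg (fun f => f.coeff 3) h0
      simp at e1
    refine (roots_finite hp).subset fun x hx => ?_
    simp only [Set.mem_ofPred_eq, eval_add, eval_mul, eval_pow, eval_X, eval_C] at hx ⊢
    linear_combination hx
  have hψ0 : ∀ i, {u | ψ i u = 0}.Finite := by
    intro i
    rcases (hψ i).dich with h | h
    · exact h
    · exfalso
      have h1 : {u | ξ i u * (ξ i u ^ 2 + A * ξ i u + B) ≠ 0}.Finite := by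
        refine h.subset fun u hu => ?_
        intro h0
        apply hu
        rw [hid i u, h0]; ring
      have h2 : {u | ξ i u * (ξ i u ^ 2 + A * ξ i u + B) = 0}.Finite := by
        refine (hroot.biUnion (t := fun c => {u | ξ i u = c}) fun c _ => hfib i c).subset
          fun u hu => ?_
        simp only [Set.mem_iUnion, Set.mem_ofPred_eq, exists_prop]
        exact ⟨ξ i u, hu, rfl⟩
      refine Set.infinite_univ (α := ℚ) ((h1.union h2).subset fun u _ => ?_)
      simp only [Set.mem_union, Set.mem_ofPred_eq]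
      exact (eq_or_ne _ _).symm
  have hne : ∀ i j, i ≠ j → {u | ξ i u = ξ j u}.Finite := by
    intro i j hij
    rcases ((hξ i).sub (hξ j)).dich with h | h
    · refine h.subset fun u hu => ?_
      exact sub_eq_zero.2 hu
    · exfalso
      refine not_sq_class (hab i j hij) ((hψ i).div (hψ j)) (F := {u | ξ i u - ξ j u ≠ 0} ∪
        ({u | u * (u ^ 2 + A * u + B) = 0} ∪ {u | ψ j u = 0})) (h.union (hroot.union (hψ0 j)))
        fun u hu => ?_
      simp only [Set.mem_union, Set.mem_ofPred_eq, not_or, not_not] at hu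
      obtain ⟨h1, h2, h3⟩ := hu
      have h4 : ξ i u = ξ j u := sub_eq_zero.1 h1
      have h5 := hid i u
      rw [h4, hid j u] at h5
      have h6 : (a j * u + b j) * ψ j u ^ 2 = (a i * u + b i) * ψ i u ^ 2 := by
        apply mul_left_cancel₀ h2
        linear_combination h5
      rw [div_pow, mul_div_assoc', ← h6]
      field_simp
  obtain ⟨F, hF, h⟩ := star hE hξ hψ hab hne hfib
  refine ⟨F, hF, fun N t u s hN hu hNt hs => ⟨_, h N t u s hN hu hNt hs fun i => ?_⟩⟩
  rw [hid i u, ← hNt, ← hs i]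
  ring

end H28.TW
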